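import Mathlib

set_option autoImplicit false

open CategoryTheory TensorProduct Matrix

namespace Pool.Agent.H35.SP

noncomputable section

/-! ### The Galois side -/

/-- The algebraic closure of `ℚ`. -/
noncomputable abbrev Qbar : Type := AlgebraicClosure ℚ

/-- The absolute Galois group of `ℚ` (with the Krull topology). -/
noncomputable abbrev GQ : Type := AlgebraicClosure ℚ ≃ₐ[ℚ] AlgebraicClosure ℚ

/-- `A` is (the valuation ring of) a place of `Qbar` above the prime `ℓ`. -/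
def Above (l : ℕ) (A : ValuationSubring Qbar) : Prop := (l : Qbar) ∈ A.nonunits

/-- The decomposition group of a place of `Qbar`. -/
abbrev decomp (A : ValuationSubring Qbar) : Subgroup GQ := A.decompositionSubgroup ℚ

/-- The inertia group of a place of `Qbar`, as a subgroup of the Galois group. -/
def inertia (A : ValuationSubring Qbar) : Subgroup GQ :=
  (A.inertiaSubgroup ℚ).map (A.decompositionSubgroup ℚ).subtype

/-- `c` is a complex conjugation: it is induced by complex conjugation of `ℂ` through some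
embedding of `Qbar` in `ℂ`. -/
def IsComplexConj (c : GQ) : Prop :=
  ∃ ι : Qbar →+* ℂ, ∀ z : Qbar, ι (c z) = (starRingEnd ℂ) (ι z)

/-- The mod `p` cyclotomic character, with values in the units of a field `k` of
characteristic `p`: the reduction of the `p`-adic cyclotomic character. -/
noncomputable def omega (p : ℕ) [Fact p.Prime] (k : Type) [Field k] [CharP k p] : GQ →* kˣ :=
  (Units.map (ZMod.castHom (dvd_refl p) k).toMonoidHom).comp
    ((Units.map (PadicInt.toZMod (p := p)).toMonoidHom).comp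
      ((cyclotomicCharacter Qbar p).comp
        { toFun := fun σ : GQ => (σ : Qbar ≃+* Qbar)
          map_one' := rfl
          map_mul' := fun _ _ => rfl }))

/-! ### Products of symplectic groups -/

/-- The group `G(R) = Sp_{2n}(R)` of the matrices `A` with `A * J * Aᵀ = J`,
`J = (0, -1; 1, 0)` in blocks of size `n`. It is the simply connected split group of type `C_n`. -/
abbrev Sp (n : ℕ) (R : Type) [CommRing R] : Type := symplecticGroup (Fin n) R

/-- A homomorphism of rings induces a homomorphism of symplectic groups. -/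
def spMap (n : ℕ) {R S : Type} [CommRing R] [CommRing S] (f : R →+* S) : Sp n R →* Sp n S where
  toFun A := ⟨A.1.map f, SymplecticGroup.map_mem A.2 f⟩
  map_one' := by
    apply Subtype.ext
    change (1 : Matrix (Fin n ⊕ Fin n) (Fin n ⊕ Fin n) R).map f = 1
    exact Matrix.map_one f (map_zero f) (map_one f)
  map_mul' A B := by
    apply Subtype.ext
    change (A.1 * B.1).map f = A.1.map f * B.1.map f
    exact Matrix.map_mul

lemma inv_blocks {n : ℕ} {R : Type} [CommRing R] (g : Sp n R) :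
    ((g⁻¹ : Sp n R) : Matrix (Fin n ⊕ Fin n) (Fin n ⊕ Fin n) R) =
      fromBlocks (g.1.toBlocks₂₂)ᵀ (-(g.1.toBlocks₁₂)ᵀ) (-(g.1.toBlocks₂₁)ᵀ) (g.1.toBlocks₁₁)ᵀ := by
  rw [SymplecticGroup.coe_inv]
  conv_lhs => rw [← fromBlocks_toBlocks (g : Matrix (Fin n ⊕ Fin n) (Fin n ⊕ Fin n) R)]
  rw [J, fromBlocks_neg, fromBlocks_transpose, fromBlocks_multiply, fromBlocks_multiply]
  simp

/-- The Borel subgroup of `Sp_{2n}(R)`: the matrices `(A, B; 0, D)` with `A` upper triangular and
`D` (the inverse transpose of `A`) lower triangular. -/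
def borel (n : ℕ) (R : Type) [CommRing R] : Subgroup (Sp n R) where
  carrier := {g : Sp n R | (∀ i j, g.1 (Sum.inr i) (Sum.inl j) = 0) ∧
    (∀ i j, j < i → g.1 (Sum.inl i) (Sum.inl j) = 0) ∧
    (∀ i j, i < j → g.1 (Sum.inr i) (Sum.inr j) = 0)}
  mul_mem' := fun {a b} ha hb => by
    obtain ⟨a1, a2, a3⟩ := ha
    obtain ⟨b1, b2, b3⟩ := hb
    refine ⟨fun i j => ?_, fun i j hij => ?_, fun i j hij => ?_⟩
    · change (a.1 * b.1) (Sum.inr i) (Sum.inl j) = 0
      rw [Matrix.mul_apply, Fintype.sum_sum_type]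
      simp [a1, b1]
    · change (a.1 * b.1) (Sum.inl i) (Sum.inl j) = 0
      rw [Matrix.mul_apply, Fintype.sum_sum_type]
      have h1 : ∀ c, a.1 (Sum.inl i) (Sum.inl c) * b.1 (Sum.inl c) (Sum.inl j) = 0 := by
        intro c
        rcases lt_or_ge c i with h | h
        · rw [a2 i c h, zero_mul]
        · rw [b2 c j (lt_of_lt_of_le hij h), mul_zero]
      simp [h1, b1]
    · change (a.1 * b.1) (Sum.inr i) (Sum.inr j) = 0
      rw [Matrix.mul_apply, Fintype.sum_sum_type]
      have h1 : ∀ c, a.1 (Sum.inr i) (Sum.inr c) * b.1 (Sum.inr c) (Sum.inr j) = 0 := by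
        intro c
        rcases lt_or_ge i c with h | h
        · rw [a3 i c h, zero_mul]
        · rw [b3 c j (lt_of_le_of_lt h hij), mul_zero]
      simp [h1, a1]
  one_mem' := by
    refine ⟨fun i j => ?_, fun i j hij => ?_, fun i j hij => ?_⟩
    · change (1 : Matrix (Fin n ⊕ Fin n) (Fin n ⊕ Fin n) R) (Sum.inr i) (Sum.inl j) = 0
      rw [Matrix.one_apply_ne (by simp)]
    · change (1 : Matrix (Fin n ⊕ Fin n) (Fin n ⊕ Fin n) R) (Sum.inl i) (Sum.inl j) = 0
      rw [Matrix.one_apply_ne (by simpa using hij.ne')]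
    · change (1 : Matrix (Fin n ⊕ Fin n) (Fin n ⊕ Fin n) R) (Sum.inr i) (Sum.inr j) = 0
      rw [Matrix.one_apply_ne (by simpa using hij.ne)]
  inv_mem' := fun {a} ha => by
    obtain ⟨a1, a2, a3⟩ := ha
    have h := inv_blocks a
    refine ⟨fun i j => ?_, fun i j hij => ?_, fun i j hij => ?_⟩
    · change ((a⁻¹ : Sp n R) : Matrix (Fin n ⊕ Fin n) (Fin n ⊕ Fin n) R) _ _ = 0
      rw [h, fromBlocks_apply₂₁, Matrix.neg_apply, Matrix.transpose_apply, Matrix.toBlocks₂₁,
        Matrix.of_apply, a1, neg_zero]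
    · change ((a⁻¹ : Sp n R) : Matrix (Fin n ⊕ Fin n) (Fin n ⊕ Fin n) R) _ _ = 0
      rw [h, fromBlocks_apply₁₁, Matrix.transpose_apply, Matrix.toBlocks₂₂,
        Matrix.of_apply, a3 _ _ hij]
    · change ((a⁻¹ : Sp n R) : Matrix (Fin n ⊕ Fin n) (Fin n ⊕ Fin n) R) _ _ = 0
      rw [h, fromBlocks_apply₂₂, Matrix.transpose_apply, Matrix.toBlocks₁₁,
        Matrix.of_apply, a2 _ _ hij]

variable {ι : Type} [Fintype ι]

/-- The group `G(R) = ∏_j Sp_{2 n_j}(R)`. It is simply connected and split. -/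
def SpP (n : ι → ℕ) (R : Type) [CommRing R] : Type := ∀ j, Sp (n j) R

instance instGroupSpP (n : ι → ℕ) (R : Type) [CommRing R] : Group (SpP n R) :=
  inferInstanceAs (Group (∀ j, Sp (n j) R))

/-- A homomorphism of rings induces a homomorphism of groups. -/
def spMapP (n : ι → ℕ) {R S : Type} [CommRing R] [CommRing S] (f : R →+* S) :
    SpP n R →* SpP n S where
  toFun g j := spMap (n j) f (g j)
  map_one' := by
    funext j
    exact map_one _
  map_mul' g h := by
    funext j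
    exact map_mul _ _ _

/-- The Borel subgroup of `G(R)`: all components are in the Borel subgroups. -/
def borelP (n : ι → ℕ) (R : Type) [CommRing R] : Subgroup (SpP n R) :=
  Subgroup.pi Set.univ fun j => borel (n j) R

/-- `Γ₀(N)`: the preimage in `G(ℤ)` of the Borel subgroup of `G(ℤ/N)`. -/
def Gamma0 (n : ι → ℕ) (N : ℕ) : Subgroup (SpP n ℤ) :=
  (borelP n (ZMod N)).comap (spMapP n (Int.castRingHom (ZMod N)))

/-! ### Weights -/

/-- The character `diag(t₁, …, t_m, t₁⁻¹, …, t_m⁻¹) ↦ ∏ tᵢ ^ xᵢ` of the diagonal torus of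
`Sp_{2m}` is strongly regular when `⟨x, α^∨⟩ ≥ 2` for every simple coroot: these numbers are
`x i - x (i + 1)` and `x m`. -/
def StronglyRegular {m : ℕ} (x : Fin m → ℤ) : Prop :=
  (∀ (i : ℕ) (hi : i + 1 < m), 2 ≤ x ⟨i, by omega⟩ - x ⟨i + 1, hi⟩) ∧
    ∀ (i : ℕ) (hi : i < m), i + 1 = m → 2 ≤ x ⟨i, hi⟩

/-- The half-sum `ρ` of the positive roots of `Sp_{2m}`: `ρ = (m, m - 1, …, 1)`. -/
def rho (m : ℕ) (i : Fin m) : ℤ := (m : ℤ) - i

/-- `π` is an irreducible representation of `G(ℚ)` over `ℚ` with a highest weight vector of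
weight `wt` (a family of weights, one for each factor). -/
structure IsIrreducibleOfHighestWeight {n : ι → ℕ} {V : Type} [AddCommGroup V] [Module ℚ V]
    (π : Representation ℚ (SpP n ℚ) V) (wt : ∀ j, Fin (n j) → ℤ) : Prop where
  irreducible : ∀ W : Submodule ℚ V, (∀ g, ∀ w ∈ W, π g w ∈ W) → W = ⊥ ∨ W = ⊤
  highest : ∃ v : V, v ≠ 0 ∧ ∀ b ∈ borelP n ℚ,
    π b v = (∏ j, ∏ i, ((b j).1 (Sum.inl i) (Sum.inl i)) ^ (wt j i)) • v

/-- `M` is a lattice in `V` stable under `G(ℤ)`. -/
structure IsStableLattice {n : ι → ℕ} {V : Type} [AddCommGroup V] [Module ℚ V]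
    (π : Representation ℚ (SpP n ℚ) V) (M : Submodule ℤ V) : Prop where
  fg : M.FG
  span : Submodule.span ℚ (M : Set V) = ⊤
  stable : ∀ g : SpP n ℤ, ∀ m ∈ M, π (spMapP n (Int.castRingHom ℚ) g) m ∈ M

/-- The action of `Γ₀(N)` on a stable lattice. -/
noncomputable def latticeRep {n : ι → ℕ} {V : Type} [AddCommGroup V] [Module ℚ V]
    {π : Representation ℚ (SpP n ℚ) V} {M : Submodule ℤ V} (hM : IsStableLattice π M) (N : ℕ) :
    Representation ℤ (Gamma0 n N) M where
  toFun g := ((π (spMapP n (Int.castRingHom ℚ) (g : SpP n ℤ))).restrictScalars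
    ℤ).restrict (fun m hm => hM.stable _ m hm)
  map_one' := by
    ext m
    simp
  map_mul' g h := by
    ext m
    change π (spMapP n (Int.castRingHom ℚ) ((g : SpP n ℤ) * (h : SpP n ℤ))) m.1 =
      π (spMapP n (Int.castRingHom ℚ) (g : SpP n ℤ))
        (π (spMapP n (Int.castRingHom ℚ) (h : SpP n ℤ)) m.1)
    rw [map_mul, map_mul, Module.End.mul_apply]

/-- The action of `Γ₀(N)` on `M ⊗ k`. -/
noncomputable def modRep {n : ι → ℕ} {V : Type} [AddCommGroup V] [Module ℚ V]
    {π : Representation ℚ (SpP n ℚ) V} {M : Submodule ℤ V} (hM : IsStableLattice π M) (N : ℕ)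
    (k : Type) [Field k] : Representation k (Gamma0 n N) (k ⊗[ℤ] M) where
  toFun g := (latticeRep hM N g).baseChange k
  map_one' := by
    ext m
    simp
  map_mul' g h := by
    ext m
    simp

/-- The cohomology group `H^i(Γ₀(N), M ⊗ k)`. -/
noncomputable abbrev H {n : ι → ℕ} {V : Type} [AddCommGroup V] [Module ℚ V]
    {π : Representation ℚ (SpP n ℚ) V} {M : Submodule ℤ V} (hM : IsStableLattice π M) (N : ℕ)
    (k : Type) [Field k] (i : ℕ) : ModuleCat k :=
  groupCohomology (Rep.of (modRep hM N k)) i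

/-! ### The dual group `∏_j SO_{2 n_j + 1}` -/

/-- The matrix of the split quadratic form, with the entries `1` on the antidiagonal. -/
def formS (n : ℕ) (k : Type) [Field k] : Matrix (Fin (2 * n + 1)) (Fin (2 * n + 1)) k :=
  Matrix.of fun i j => if j = Fin.rev i then 1 else 0

/-- The group `SO_{2n+1}(k)` (`k` of characteristic different from `2`), dual to `Sp_{2n}`. -/
def SO (n : ℕ) (k : Type) [Field k] : Subgroup (GL (Fin (2 * n + 1)) k) where
  carrier := {g | g.1ᵀ * formS n k * g.1 = formS n k ∧ g.1.det = 1}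
  mul_mem' := fun {a b} ha hb => by
    refine ⟨?_, ?_⟩
    · rw [Units.val_mul, Matrix.transpose_mul]
      calc b.1ᵀ * a.1ᵀ * formS n k * (a.1 * b.1) = b.1ᵀ * (a.1ᵀ * formS n k * a.1) * b.1 := by
            simp only [Matrix.mul_assoc]
        _ = formS n k := by rw [ha.1, hb.1]
    · rw [Units.val_mul, Matrix.det_mul, ha.2, hb.2, one_mul]
  one_mem' := by
    refine ⟨?_, ?_⟩ <;> simp
  inv_mem' := fun {a} ha => by
    have h1 : a.1 * (a⁻¹).1 = 1 := by rw [← Units.val_mul, mul_inv_cancel]; rfl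
    have h2 : (a⁻¹).1ᵀ * a.1ᵀ = 1 := by rw [← Matrix.transpose_mul, h1, Matrix.transpose_one]
    refine ⟨?_, ?_⟩
    · calc (a⁻¹).1ᵀ * formS n k * (a⁻¹).1 =
            (a⁻¹).1ᵀ * (a.1ᵀ * formS n k * a.1) * (a⁻¹).1 := by rw [ha.1]
        _ = ((a⁻¹).1ᵀ * a.1ᵀ) * formS n k * (a.1 * (a⁻¹).1) := by simp only [Matrix.mul_assoc]
        _ = formS n k := by rw [h1, h2, Matrix.one_mul, Matrix.mul_one]
    · have h3 := congrArg Matrix.det h1
      rw [Matrix.det_mul, ha.2, one_mul, Matrix.det_one] at h3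
      exact h3

/-- The Lie algebra of `SO_{2n+1}` over `k`. -/
def LieSO (n : ℕ) (k : Type) [Field k] :
    Submodule k (Matrix (Fin (2 * n + 1)) (Fin (2 * n + 1)) k) where
  carrier := {X | Xᵀ * formS n k + formS n k * X = 0}
  add_mem' := fun {X Y} hX hY => by
    change (X + Y)ᵀ * formS n k + formS n k * (X + Y) = 0
    have h1 : Xᵀ * formS n k + formS n k * X = 0 := hX
    have h2 : Yᵀ * formS n k + formS n k * Y = 0 := hY
    rw [Matrix.transpose_add, Matrix.add_mul, Matrix.mul_add, add_add_add_comm, h1, h2, add_zero]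
  zero_mem' := by
    change (0 : Matrix (Fin (2 * n + 1)) (Fin (2 * n + 1)) k)ᵀ * formS n k + formS n k * 0 = 0
    simp
  smul_mem' := fun c X hX => by
    have h1 : Xᵀ * formS n k + formS n k * X = 0 := hX
    change (c • X)ᵀ * formS n k + formS n k * (c • X) = 0
    rw [Matrix.transpose_smul, Matrix.smul_mul, Matrix.mul_smul, ← smul_add, h1, smul_zero]

/-- Conjugation by `g` on matrices. -/
noncomputable def conjMat {m : ℕ} {k : Type} [Field k] (g : GL (Fin m) k) :
    Matrix (Fin m) (Fin m) k →ₗ[k] Matrix (Fin m) (Fin m) k :=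
  (LinearMap.mulLeft k (g : Matrix (Fin m) (Fin m) k)).comp
    (LinearMap.mulRight k ((g⁻¹ : GL (Fin m) k) : Matrix (Fin m) (Fin m) k))

lemma conjMat_mem {n : ℕ} {k : Type} [Field k] (g : SO n k)
    (X : Matrix (Fin (2 * n + 1)) (Fin (2 * n + 1)) k) (hX : X ∈ LieSO n k) :
    conjMat g.1 X ∈ LieSO n k := by
  have hX' : Xᵀ * formS n k + formS n k * X = 0 := hX
  have hg := g.2.1
  have hi := (g⁻¹ : SO n k).2.1
  have h1 : g.1.1 * (g.1⁻¹).1 = 1 := by rw [← Units.val_mul, mul_inv_cancel]; rfl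
  have h1' : (g.1⁻¹).1 * g.1.1 = 1 := by rw [← Units.val_mul, inv_mul_cancel]; rfl
  have h2 : (g.1⁻¹).1ᵀ * g.1.1ᵀ = 1 := by rw [← Matrix.transpose_mul, h1, Matrix.transpose_one]
  -- `gᵀ S = S g⁻¹` and `S g = (g⁻¹)ᵀ S`
  have h3 : g.1.1ᵀ * formS n k = formS n k * (g.1⁻¹).1 := by
    calc g.1.1ᵀ * formS n k = g.1.1ᵀ * formS n k * (g.1.1 * (g.1⁻¹).1) := by
          rw [h1, Matrix.mul_one]
      _ = (g.1.1ᵀ * formS n k * g.1.1) * (g.1⁻¹).1 := by simp only [Matrix.mul_assoc]
      _ = formS n k * (g.1⁻¹).1 := by rw [hg]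
  have h4 : formS n k * g.1.1 = (g.1⁻¹).1ᵀ * formS n k := by
    calc formS n k * g.1.1 = ((g.1⁻¹).1ᵀ * g.1.1ᵀ) * (formS n k * g.1.1) := by
          rw [h2, Matrix.one_mul]
      _ = (g.1⁻¹).1ᵀ * (g.1.1ᵀ * formS n k * g.1.1) := by simp only [Matrix.mul_assoc]
      _ = (g.1⁻¹).1ᵀ * formS n k := by rw [hg]
  change (g.1.1 * (X * (g.1⁻¹).1))ᵀ * formS n k + formS n k * (g.1.1 * (X * (g.1⁻¹).1)) = 0
  calc (g.1.1 * (X * (g.1⁻¹).1))ᵀ * formS n k + formS n k * (g.1.1 * (X * (g.1⁻¹).1))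
      = (g.1⁻¹).1ᵀ * Xᵀ * (g.1.1ᵀ * formS n k) + (formS n k * g.1.1) * X * (g.1⁻¹).1 := by
        rw [Matrix.transpose_mul, Matrix.transpose_mul]
        simp only [Matrix.mul_assoc]
    _ = (g.1⁻¹).1ᵀ * (Xᵀ * formS n k + formS n k * X) * (g.1⁻¹).1 := by
        rw [h3, h4, Matrix.mul_add, Matrix.add_mul]
        simp only [Matrix.mul_assoc]
    _ = 0 := by rw [hX', Matrix.mul_zero, Matrix.zero_mul]

/-- The adjoint action of `g` on the Lie algebra of `SO_{2n+1}`. -/
noncomputable def Ad {n : ℕ} {k : Type} [Field k] (g : SO n k) : LieSO n k →ₗ[k] LieSO n k :=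
  (conjMat g.1).restrict (conjMat_mem g)

/-- The cocharacter `x^∨` of the diagonal torus of `SO_{2n+1}` that corresponds to the character
`x` of the torus of `Sp_{2n}` is `t ↦ diag (t ^ x₁, …, t ^ x_n, 1, t ^ (-x_n), …, t ^ (-x₁))`;
these are its exponents. -/
def expo {n : ℕ} (x : Fin n → ℤ) (i : Fin (2 * n + 1)) : ℤ :=
  if h : (i : ℕ) < n then x ⟨i, h⟩ else if h' : n < i then -x ⟨2 * n - i, by omega⟩ else 0

/-- The dual group `G^∨(k) = ∏_j SO_{2 n_j + 1}(k)`. -/
def SOP (n : ι → ℕ) (k : Type) [Field k] : Type := ∀ j, SO (n j) k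

instance instGroupSOP (n : ι → ℕ) (k : Type) [Field k] : Group (SOP n k) :=
  inferInstanceAs (Group (∀ j, SO (n j) k))

/-! ### The hypotheses on the Galois representation -/

/-- `r` is odd: for every complex conjugation `c`, the trace of `Ad (r c)` on the Lie algebra of
`G^∨` over `k`, i.e. the sum over `j` of the traces on the Lie algebras of the factors
`SO_{2 n_j + 1}`, is `rank(G) - 2 rank(K) = ∑ n_j - 2 ∑ n_j` (here `G(ℝ) = ∏ Sp_{2 n_j}(ℝ)`,
`K = ∏ U(n_j)`). -/
def IsOdd {n : ι → ℕ} {k : Type} [Field k] (r : GQ →* SOP n k) : Prop :=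
  ∀ c : GQ, IsComplexConj c →
    ∑ j, LinearMap.trace k (LieSO (n j) k) (Ad (r c j)) =
      ((∑ j, (n j : ℤ) - 2 * ∑ j, (n j : ℤ) : ℤ) : k)

/-- `r` is nearly ordinary of type `x` at `p`: at every place above `p` the restriction of `r` to
the decomposition group is conjugate into the Borel subgroup (upper triangular matrices in all the
factors), in such a way that on inertia the diagonal part is `x^∨ ∘ ω`. -/
def IsNearlyOrdinary (p : ℕ) [Fact p.Prime] {n : ι → ℕ} {k : Type} [Field k] [CharP k p]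
    (x : ∀ j, Fin (n j) → ℤ) (r : GQ →* SOP n k) : Prop :=
  ∀ A : ValuationSubring Qbar, Above p A → ∃ g : SOP n k, ∀ σ ∈ decomp A, ∀ j,
    Matrix.BlockTriangular ((g⁻¹ * r σ * g : SOP n k) j).1.1 id ∧
      (σ ∈ inertia A → ∀ i, ((g⁻¹ * r σ * g : SOP n k) j).1.1 i i =
        ((omega p k σ ^ (expo (x j) i) : kˣ) : k))

/-- `r` is Steinberg at `l`: the image of inertia is the cyclic group generated by a principal
unipotent element (one with a single Jordan block in every factor). -/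
def IsSteinbergAt (l : ℕ) {n : ι → ℕ} {k : Type} [Field k] (r : GQ →* SOP n k) : Prop :=
  ∀ A : ValuationSubring Qbar, Above l A → ∃ u : SOP n k,
    (∀ j, ((u j).1.1 - 1) ^ (2 * n j + 1) = 0 ∧ ((u j).1.1 - 1) ^ (2 * n j) ≠ 0) ∧
    (inertia A).map r = Subgroup.zpowers u

/-- `r` is unramified at `l`. -/
def IsUnramifiedAt (l : ℕ) {n : ι → ℕ} {k : Type} [Field k] (r : GQ →* SOP n k) : Prop :=
  ∀ A : ValuationSubring Qbar, Above l A → ∀ σ ∈ inertia A, r σ = 1

/-- All the hypotheses of the question, for `G = ∏ Sp_{2 n_j}`, on the weight `x`, the finite set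
`S` of primes and the representation `r` of the absolute Galois group of `ℚ`. -/
structure Hypotheses (p : ℕ) [Fact p.Prime] {n : ι → ℕ} (k : Type) [Field k] [CharP k p]
    (x : ∀ j, Fin (n j) → ℤ) (S : Finset ℕ) (r : GQ →* SOP n k) : Prop where
  regular : ∀ j, StronglyRegular (x j)
  primes : ∀ l ∈ S, l.Prime ∧ l ≠ p
  continuous : IsOpen (r.ker : Set GQ)
  odd : IsOdd r
  ordinary : IsNearlyOrdinary p x r
  steinberg : ∀ l ∈ S, IsSteinbergAt l r
  unramified : ∀ l : ℕ, l.Prime → l ∉ S → l ≠ p → IsUnramifiedAt l r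

/-- The number of odd entries of `x`. -/
def numOdd {n : ℕ} (x : Fin n → ℤ) : ℕ := (Finset.univ.filter fun i => Odd (x i)).card

/-- `r` is the homomorphism `x^∨ ∘ ω`: its component `j` is
`σ ↦ diag (ω(σ) ^ x₁, …, ω(σ) ^ x_m, 1, ω(σ) ^ (-x_m), …, ω(σ) ^ (-x₁))` for the weight
`x j = (x₁, …, x_m)`, `m = n j`. -/
def IsCoch (p : ℕ) [Fact p.Prime] {n : ι → ℕ} (k : Type) [Field k] [CharP k p]
    (x : ∀ j, Fin (n j) → ℤ) (r : GQ →* SOP n k) : Prop :=
  ∀ σ j, (r σ j).1.1 = Matrix.diagonal fun i => ((omega p k σ ^ expo (x j) i : kˣ) : k)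


end

end Pool.Agent.H35.SP
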