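import Pool.Agent.H35.SP.Defs
import Pool.Graph.R_seed8.H320R3.CenterKills

set_option autoImplicit false

open CategoryTheory TensorProduct Matrix

namespace Pool.Agent.H35.SP

noncomputable section

variable {ι : Type} [Fintype ι]

/-! ### Proofs: vanishing of the cohomology -/

/-- `-1` as an element of `Sp_{2n}(R)`. -/
def negOne (n : ℕ) (R : Type) [CommRing R] : Sp n R :=
  ⟨-1, SymplecticGroup.neg_mem (one_mem _)⟩

lemma negOne_mem_borel (n : ℕ) (R : Type) [CommRing R] : negOne n R ∈ borel n R := by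
  refine ⟨fun i j => ?_, fun i j hij => ?_, fun i j hij => ?_⟩
  · change (-1 : Matrix (Fin n ⊕ Fin n) (Fin n ⊕ Fin n) R) (Sum.inr i) (Sum.inl j) = 0
    rw [Matrix.neg_apply, Matrix.one_apply_ne (by simp), neg_zero]
  · change (-1 : Matrix (Fin n ⊕ Fin n) (Fin n ⊕ Fin n) R) (Sum.inl i) (Sum.inl j) = 0
    rw [Matrix.neg_apply, Matrix.one_apply_ne (by simpa using hij.ne'), neg_zero]
  · change (-1 : Matrix (Fin n ⊕ Fin n) (Fin n ⊕ Fin n) R) (Sum.inr i) (Sum.inr j) = 0
    rw [Matrix.neg_apply, Matrix.one_apply_ne (by simpa using hij.ne), neg_zero]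

lemma negOne_comm (n : ℕ) (R : Type) [CommRing R] (g : Sp n R) :
    g * negOne n R = negOne n R * g := by
  apply Subtype.ext
  change g.1 * (-1) = (-1) * g.1
  simp

lemma map_negOne (n : ℕ) {R S : Type} [CommRing R] [CommRing S] (f : R →+* S) :
    spMap n f (negOne n R) = negOne n S := by
  apply Subtype.ext
  change f.mapMatrix (-1) = -1
  rw [map_neg, map_one]

lemma prod_neg_one_zpow {ι : Type} (s : Finset ι) (f : ι → ℤ) :
    ∏ i ∈ s, (-1 : ℚ) ^ f i = (-1) ^ (∑ i ∈ s, f i) := by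
  classical
  induction s using Finset.induction_on with
  | empty => simp
  | insert a s ha ih =>
    rw [Finset.prod_insert ha, Finset.sum_insert ha, ih, zpow_add₀ (by norm_num)]

open Classical in
/-- `-1` in the factor `j`, and `1` in the other factors -/
noncomputable def negAt (n : ι → ℕ) (R : Type) [CommRing R] (j : ι) : SpP n R :=
  fun j' => if j' = j then negOne (n j') R else 1

lemma negAt_mem_borel (n : ι → ℕ) (R : Type) [CommRing R] (j : ι) : negAt n R j ∈ borelP n R := by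
  change ∀ j' ∈ (Set.univ : Set ι), negAt n R j j' ∈ borel (n j') R
  intro j' _
  unfold negAt
  split_ifs
  · exact negOne_mem_borel _ _
  · exact one_mem _

lemma negAt_comm (n : ι → ℕ) (R : Type) [CommRing R] (j : ι) (g : SpP n R) :
    g * negAt n R j = negAt n R j * g := by
  funext j'
  change g j' * negAt n R j j' = negAt n R j j' * g j'
  unfold negAt
  split_ifs
  · exact negOne_comm _ _ _
  · rw [mul_one, one_mul]

lemma map_negAt (n : ι → ℕ) {R S : Type} [CommRing R] [CommRing S] (f : R →+* S) (j : ι) :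
    spMapP n f (negAt n R j) = negAt n S j := by
  funext j'
  change spMap (n j') f (negAt n R j j') = negAt n S j j'
  unfold negAt
  split_ifs
  · exact map_negOne _ _
  · exact map_one _

/-- `-1` in the factor `j` acts as `-1`. -/
lemma negAt_act {n : ι → ℕ} {V : Type} [AddCommGroup V] [Module ℚ V]
    {π : Representation ℚ (SpP n ℚ) V} {wt : ∀ j, Fin (n j) → ℤ}
    (h : IsIrreducibleOfHighestWeight π wt) (j : ι)
    (hwt : Odd (∑ i, wt j i)) (v : V) : π (negAt n ℚ j) v = -v := by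
  classical
  obtain ⟨v₀, hv₀, hb⟩ := h.highest
  have h1 : π (negAt n ℚ j) v₀ = -v₀ := by
    rw [hb _ (negAt_mem_borel n ℚ j), Finset.prod_eq_single j]
    · have h2 : ∀ i, (negAt n ℚ j j).1 (Sum.inl i) (Sum.inl i) = -1 := by
        intro i
        unfold negAt
        rw [if_pos rfl]
        change (-1 : Matrix (Fin (n j) ⊕ Fin (n j)) (Fin (n j) ⊕ Fin (n j)) ℚ)
          (Sum.inl i) (Sum.inl i) = -1
        simp
      simp_rw [h2]
      rw [prod_neg_one_zpow, hwt.neg_one_zpow, neg_one_smul]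
    · intro j' _ hj'
      refine Finset.prod_eq_one fun i _ => ?_
      have h2 : (negAt n ℚ j j').1 (Sum.inl i) (Sum.inl i) = 1 := by
        unfold negAt
        rw [if_neg hj']
        change (1 : Matrix (Fin (n j') ⊕ Fin (n j')) (Fin (n j') ⊕ Fin (n j')) ℚ)
          (Sum.inl i) (Sum.inl i) = 1
        simp
      rw [h2, _root_.one_zpow]
    · intro hj
      exact absurd (Finset.mem_univ j) hj
  let W : Submodule ℚ V := LinearMap.ker (π (negAt n ℚ j) + LinearMap.id)
  have hW : ∀ w, w ∈ W ↔ π (negAt n ℚ j) w = -w := by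
    intro w
    simp only [W, LinearMap.mem_ker, LinearMap.add_apply, LinearMap.id_apply]
    exact add_eq_zero_iff_eq_neg
  have hst : ∀ g, ∀ w ∈ W, π g w ∈ W := by
    intro g w hw
    rw [hW] at hw ⊢
    rw [← Module.End.mul_apply, ← map_mul, ← negAt_comm, map_mul, Module.End.mul_apply, hw,
      map_neg]
  rcases h.irreducible W hst with h3 | h3
  · exact absurd ((Submodule.mem_bot ℚ).1 (h3 ▸ (hW v₀).2 h1)) hv₀
  · exact (hW v).1 (h3 ▸ Submodule.mem_top)

/-- In characteristic different from `2`, all the cohomology vanishes when the sum of the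
coordinates of the highest weight is odd in one of the factors. -/
lemma vanishing {n : ι → ℕ} {V : Type} [AddCommGroup V] [Module ℚ V]
    {π : Representation ℚ (SpP n ℚ) V} {wt : ∀ j, Fin (n j) → ℤ}
    (h : IsIrreducibleOfHighestWeight π wt) (j : ι)
    (hwt : Odd (∑ i, wt j i)) {M : Submodule ℤ V} (hM : IsStableLattice π M) (N : ℕ) (k : Type)
    [Field k] (h2 : (2 : k) ≠ 0) (i : ℕ) : Subsingleton (H hM N k i) := by
  have hmem : negAt n ℤ j ∈ Gamma0 n N := by
    change spMapP n (Int.castRingHom (ZMod N)) (negAt n ℤ j) ∈ borelP n (ZMod N)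
    rw [map_negAt]
    exact negAt_mem_borel n _ j
  refine Pool.Agent.H320R3.CenterKills.subsingleton_groupCohomology _ (⟨negAt n ℤ j, hmem⟩ : Gamma0 n N)
    (fun g => Subtype.ext (negAt_comm n ℤ j g)) ?_ (isUnit_iff_ne_zero.2 h2) i
  intro a
  have h1 : latticeRep hM N ⟨negAt n ℤ j, hmem⟩ = -LinearMap.id := by
    ext m
    change π (spMapP n (Int.castRingHom ℚ) (negAt n ℤ j)) m.1 = _
    rw [map_negAt, negAt_act h j hwt]
    simp
  change (latticeRep hM N ⟨negAt n ℤ j, hmem⟩).baseChange k a = -a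
  rw [h1]
  simp

section Cyclotomic

variable (p : ℕ) [Fact p.Prime] (k : Type) [Field k] [CharP k p]

lemma omega_spec (σ : GQ) : ∃ n : ℕ, (∀ t : Qbar, t ^ p = 1 → σ t = t ^ n) ∧
    ((omega p k σ : kˣ) : k) = (n : k) := by
  have hne : ∀ i : ℕ, NeZero ((p ^ i : ℕ) : Qbar) := fun i =>
    ⟨by exact_mod_cast pow_ne_zero i (Fact.out : p.Prime).ne_zero⟩
  have hinst : ∀ i, HasEnoughRootsOfUnity Qbar (p ^ i) := fun i => inferInstance
  set a : ℤ_[p] := ((cyclotomicCharacter Qbar p) (σ : Qbar ≃+* Qbar)).val with ha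
  refine ⟨(PadicInt.toZModPow 1 a).val, ?_, ?_⟩
  · intro t ht
    have := cyclotomicCharacter.spec p (n := 1) (σ : Qbar ≃+* Qbar) t (by rw [pow_one]; exact ht)
    exact this
  · have h1 : a - (((PadicInt.toZModPow 1 a).val : ℕ) : ℤ_[p]) ∈
        RingHom.ker (PadicInt.toZModPow (p := p) 1) := by
      rw [RingHom.mem_ker, map_sub, map_natCast, ZMod.natCast_val, ZMod.cast_id, sub_self]
    rw [PadicInt.ker_toZModPow, Ideal.mem_span_singleton, pow_one] at h1
    obtain ⟨c, hc⟩ := h1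
    have h2 : PadicInt.toZMod a = (((PadicInt.toZModPow 1 a).val : ℕ) : ZMod p) := by
      have h3 : a = (((PadicInt.toZModPow 1 a).val : ℕ) : ℤ_[p]) + p * c := by
        rw [← hc]; ring
      conv_lhs => rw [h3]
      rw [map_add, map_mul, map_natCast, map_natCast]
      simp
    change (ZMod.castHom (dvd_refl p) k) (PadicInt.toZMod a) = _
    rw [h2, map_natCast]

omit [Fact p.Prime] in
variable {p} in
lemma cast_one_of_dvd (hp : 1 ≤ p) {n : ℕ} (h : p ∣ n + (p - 1)) : (n : k) = 1 := by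
  have h1 : ((n + (p - 1) : ℕ) : k) = 0 := (CharP.cast_eq_zero_iff k p _).2 h
  rw [Nat.cast_add, Nat.cast_sub hp, CharP.cast_eq_zero k p] at h1
  push_cast at h1
  linear_combination h1

lemma exists_zeta : ∃ z : Qbar, IsPrimitiveRoot z p := by
  have : NeZero ((p : ℕ) : Qbar) := ⟨by exact_mod_cast (Fact.out : p.Prime).ne_zero⟩
  exact HasEnoughRootsOfUnity.exists_primitiveRoot Qbar p

variable {p}

/-- complex conjugation acts by `-1` -/
lemma omega_conj {c : GQ} (hc : IsComplexConj c) : omega p k c = -1 := by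
  obtain ⟨ι, hι⟩ := hc
  obtain ⟨n, h1, h2⟩ := omega_spec p k c
  obtain ⟨z, hz⟩ := exists_zeta p
  have h3 := h1 z hz.pow_eq_one
  have h4 := hι z
  rw [h3, map_pow] at h4
  have hnorm : ‖ι z‖ = 1 := by
    have h5 : (ι z) ^ p = 1 := by rw [← map_pow, hz.pow_eq_one, map_one]
    exact Complex.norm_eq_one_of_pow_eq_one h5 (Fact.out : p.Prime).ne_zero
  have h6 : (starRingEnd ℂ) (ι z) * ι z = 1 := by
    rw [← Complex.normSq_eq_conj_mul_self, Complex.normSq_eq_norm_sq, hnorm]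
    norm_num
  have h7 : ι (z ^ (n + 1)) = 1 := by
    rw [map_pow, pow_succ, h4, h6]
  have h8 : z ^ (n + 1) = 1 := ι.injective (by rw [h7, map_one])
  have h9 : p ∣ n + 1 := (hz.pow_eq_one_iff_dvd _).1 h8
  have h10 : ((n + 1 : ℕ) : k) = 0 := (CharP.cast_eq_zero_iff k p _).2 h9
  apply Units.ext
  rw [h2, Units.val_neg, Units.val_one]
  push_cast at h10
  linear_combination h10

/-- elements fixing the `p`-th roots of unity are in the kernel -/
lemma omega_of_fix {σ : GQ} {z : Qbar} (hz : IsPrimitiveRoot z p) (h : σ z = z) :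
    omega p k σ = 1 := by
  obtain ⟨n, h1, h2⟩ := omega_spec p k σ
  have h3 := h1 z hz.pow_eq_one
  rw [h] at h3
  have hp : p.Prime := Fact.out
  have h4 : z ^ (n + (p - 1)) = 1 := by
    rw [pow_add, ← h3, ← pow_succ', Nat.sub_add_cancel hp.one_le, hz.pow_eq_one]
  have h5 : p ∣ n + (p - 1) := (hz.pow_eq_one_iff_dvd _).1 h4
  apply Units.ext
  rw [h2, Units.val_one]
  exact cast_one_of_dvd k hp.one_le h5

lemma isOpen_omega : IsOpen ((omega p k).ker : Set GQ) := by
  obtain ⟨z, hz⟩ := exists_zeta p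
  have hint : IsIntegral ℚ z := (hz.isIntegral (Fact.out : p.Prime).pos).tower_top
  have : FiniteDimensional ℚ (IntermediateField.adjoin ℚ {z}) :=
    IntermediateField.adjoin.finiteDimensional hint
  have h1 := IntermediateField.fixingSubgroup_isOpen (IntermediateField.adjoin ℚ {z})
  refine Subgroup.isOpen_mono (H₁ := (IntermediateField.adjoin ℚ {z}).fixingSubgroup) ?_ h1
  intro σ hσ
  rw [MonoidHom.mem_ker]
  refine omega_of_fix k hz ?_
  rw [IntermediateField.mem_fixingSubgroup_iff] at hσ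
  exact hσ z (IntermediateField.mem_adjoin_simple_self ℚ z)

/-- `ω` is unramified outside `p` -/
lemma omega_unramified {l : ℕ} (hl : l.Prime) (hlp : l ≠ p) {A : ValuationSubring Qbar}
    (hA : Above l A) {σ : GQ} (hσ : σ ∈ inertia A) : omega p k σ = 1 := by
  obtain ⟨τ, hτ, rfl⟩ := hσ
  obtain ⟨n, h1, h2⟩ := omega_spec p k ((A.decompositionSubgroup ℚ).subtype τ)
  obtain ⟨z, hz⟩ := exists_zeta p
  have hp : p.Prime := Fact.out
  have hzA : z ∈ A := by
    rcases A.mem_or_inv_mem z with h | h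
    · exact h
    · have h3 : z = (z⁻¹) ^ (p - 1) := by
        have h4 : z ^ (p - 1) * z = 1 := by
          rw [← pow_succ, Nat.sub_add_cancel hp.one_le, hz.pow_eq_one]
        rw [inv_pow]
        exact eq_inv_of_mul_eq_one_right h4
      rw [h3]
      exact pow_mem h _
  let zA : A := ⟨z, hzA⟩
  set r : IsLocalRing.ResidueField A := IsLocalRing.residue A zA with hr
  have h3 : IsLocalRing.residue A (τ • zA) = r := by
    have h4 : MulSemiringAction.toRingAut (A.decompositionSubgroup ℚ)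
        (IsLocalRing.ResidueField A) τ = 1 := hτ
    have h5 := congrArg (fun f => f r) h4
    change τ • r = r at h5
    rw [hr, ← IsLocalRing.ResidueField.residue_smul] at h5
    exact h5
  have h4 : τ • zA = zA ^ n := by
    apply Subtype.ext
    have := h1 z hz.pow_eq_one
    exact this
  rw [h4, map_pow] at h3
  have h5 : r ^ p = 1 := by
    rw [hr, ← map_pow]
    have : zA ^ p = 1 := Subtype.ext hz.pow_eq_one
    rw [this, map_one]
  have h6 : orderOf r = 1 ∨ orderOf r = p := (Nat.dvd_prime hp).1 (orderOf_dvd_of_pow_eq_one h5)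
  have hlr : ((l : ℕ) : IsLocalRing.ResidueField A) = 0 := by
    have h7 : ((l : ℕ) : A) ∈ IsLocalRing.maximalIdeal A := by
      rw [← ValuationSubring.coe_mem_nonunits_iff]
      exact_mod_cast hA
    have h8 := (IsLocalRing.residue_eq_zero_iff _).2 h7
    rwa [map_natCast] at h8
  rcases h6 with h6 | h6
  · exfalso
    rw [orderOf_eq_one_iff] at h6
    have h7 : ∑ i ∈ Finset.range p, zA ^ i = 0 := by
      apply Subtype.ext
      have := hz.geom_sum_eq_zero hp.one_lt
      push_cast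
      exact this
    have h8 := congrArg (IsLocalRing.residue A) h7
    rw [map_sum, map_zero] at h8
    simp only [map_pow] at h8
    rw [← hr, h6] at h8
    simp only [one_pow, Finset.sum_const, Finset.card_range, nsmul_eq_mul, mul_one] at h8
    have h9 : IsCoprime (l : ℤ) (p : ℤ) := Nat.isCoprime_iff_coprime.2 ((Nat.coprime_primes hl hp).2 hlp)
    obtain ⟨a, b, hab⟩ := h9
    have h10 := congrArg (fun x : ℤ => (x : IsLocalRing.ResidueField A)) hab
    push_cast at h10
    rw [hlr, h8] at h10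
    simp at h10
  · have h7 : r ^ (n + (p - 1)) = 1 := by
      rw [pow_add, h3, ← pow_succ', Nat.sub_add_cancel hp.one_le, h5]
    have h8 := orderOf_dvd_of_pow_eq_one h7
    rw [h6] at h8
    apply Units.ext
    rw [h2, Units.val_one]
    exact cast_one_of_dvd k hp.one_le h8

end Cyclotomic

/-! ### The trace of `Ad` of a diagonal matrix -/

/-- `X ↦ S Xᵀ S` -/
def tau (n : ℕ) (k : Type) [Field k] : Matrix (Fin (2 * n + 1)) (Fin (2 * n + 1)) k →ₗ[k]
    Matrix (Fin (2 * n + 1)) (Fin (2 * n + 1)) k where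
  toFun X := (X.submatrix Fin.rev Fin.rev)ᵀ
  map_add' _ _ := rfl
  map_smul' _ _ := rfl

lemma tau_apply {n : ℕ} {k : Type} [Field k] (X : Matrix (Fin (2 * n + 1)) (Fin (2 * n + 1)) k)
    (i j : Fin (2 * n + 1)) : tau n k X i j = X j.rev i.rev := rfl

lemma mem_LieSO {n : ℕ} {k : Type} [Field k]
    (X : Matrix (Fin (2 * n + 1)) (Fin (2 * n + 1)) k) : X ∈ LieSO n k ↔ tau n k X = -X := by
  have h1 : ∀ i j, (Xᵀ * formS n k + formS n k * X) i j = X j.rev i + X i.rev j := by
    intro i j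
    rw [Matrix.add_apply, Matrix.mul_apply, Matrix.mul_apply]
    congr 1
    · rw [Finset.sum_eq_single j.rev]
      · simp [formS]
      · intro b _ hb
        have : j ≠ b.rev := fun h => hb (by rw [h, Fin.rev_rev])
        simp [formS, this]
      · simp
    · rw [Finset.sum_eq_single i.rev]
      · simp [formS]
      · intro b _ hb
        simp [formS, hb]
      · simp
  have h2 : X ∈ LieSO n k ↔ Xᵀ * formS n k + formS n k * X = 0 := Iff.rfl
  rw [h2]
  constructor
  · intro h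
    ext i j
    have h3 := h1 i.rev j
    rw [h, Matrix.zero_apply, Fin.rev_rev] at h3
    rw [tau_apply, Matrix.neg_apply]
    linear_combination -h3
  · intro h
    ext i j
    have h3 := congrFun (congrFun h i.rev) j
    rw [tau_apply, Matrix.neg_apply, Fin.rev_rev] at h3
    rw [h1, h3, Matrix.zero_apply, neg_add_cancel]

lemma trace_restrict {k V : Type} [Field k] [AddCommGroup V] [Module k V] [FiniteDimensional k V]
    (T P : V →ₗ[k] V) (W : Submodule k V) (hT : ∀ w ∈ W, T w ∈ W) (hP : LinearMap.IsProj W P) :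
    LinearMap.trace k W (T.restrict hT) = LinearMap.trace k V (T.comp P) := by
  let Q : V →ₗ[k] W := P.codRestrict W hP.map_mem
  have h1 : T.restrict hT = Q.comp (T.comp W.subtype) := by
    ext w
    change T w = P (T w)
    rw [hP.map_id _ (hT _ w.2)]
  have h2 : W.subtype.comp Q = P := by
    ext v
    rfl
  rw [h1, LinearMap.trace_comp_comm', LinearMap.comp_assoc, h2]

/-- The diagonal matrices. -/
noncomputable def diagHom (n : ℕ) (k : Type) [Field k] : (Fin n → kˣ) →* GL (Fin n) k :=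
  (Units.map (Matrix.diagonalRingHom (Fin n) k).toMonoidHom).comp
    (MulEquiv.piUnits (M := fun _ : Fin n => k)).symm.toMonoidHom

lemma diagHom_coe {n : ℕ} (k : Type) [Field k] (u : Fin n → kˣ) :
    (diagHom n k u : Matrix (Fin n) (Fin n) k) = Matrix.diagonal fun i => ((u i : kˣ) : k) := rfl

lemma conjMat_diag {n : ℕ} (k : Type) [Field k] (u : Fin n → kˣ) (X : Matrix (Fin n) (Fin n) k)
    (i j : Fin n) : conjMat (diagHom n k u) X i j = (u i : k) * X i j * (((u j)⁻¹ : kˣ) : k) := by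
  unfold conjMat
  rw [LinearMap.comp_apply, LinearMap.mulLeft_apply, LinearMap.mulRight_apply, ← map_inv,
    diagHom_coe, diagHom_coe, Matrix.diagonal_mul, Matrix.mul_diagonal, mul_assoc]
  rfl

lemma trace_eq_sum {m : ℕ} {k : Type} [Field k]
    (T : Matrix (Fin m) (Fin m) k →ₗ[k] Matrix (Fin m) (Fin m) k) :
    LinearMap.trace k _ T = ∑ i, ∑ j, T (Matrix.single i j 1) i j := by
  rw [LinearMap.trace_eq_matrix_trace k (Matrix.stdBasis k (Fin m) (Fin m)), Matrix.trace,
    Fintype.sum_prod_type]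
  refine Finset.sum_congr rfl fun i _ => Finset.sum_congr rfl fun j _ => ?_
  rw [Matrix.diag_apply, LinearMap.toMatrix_apply, Matrix.stdBasis_eq_single]
  rfl

lemma trace_Ad_diag {n : ℕ} (k : Type) [Field k] (h2 : (2 : k) ≠ 0) (g : SO n k)
    (u : Fin (2 * n + 1) → kˣ) (hg : g.1 = diagHom (2 * n + 1) k u) :
    2 * LinearMap.trace k (LieSO n k) (Ad g) =
      (∑ i, (u i : k)) * (∑ i, (((u i)⁻¹ : kˣ) : k)) -
        ∑ i, (u i : k) * (((u i.rev)⁻¹ : kˣ) : k) := by
  have hP : LinearMap.IsProj (LieSO n k) ((2⁻¹ : k) • (LinearMap.id - tau n k)) := by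
    constructor
    · intro X
      rw [mem_LieSO]
      ext i j
      simp only [LinearMap.smul_apply, LinearMap.sub_apply, LinearMap.id_apply, tau_apply,
        Matrix.smul_apply, Matrix.sub_apply, Matrix.neg_apply, Fin.rev_rev, smul_eq_mul]
      ring
    · intro X hX
      rw [mem_LieSO] at hX
      simp only [LinearMap.smul_apply, LinearMap.sub_apply, LinearMap.id_apply, hX]
      rw [sub_neg_eq_add, ← two_smul k X, smul_smul, inv_mul_cancel₀ h2, one_smul]
  unfold Ad
  rw [trace_restrict _ _ _ (conjMat_mem g) hP, trace_eq_sum, hg, Finset.sum_mul_sum,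
    Finset.mul_sum, ← Finset.sum_sub_distrib]
  refine Finset.sum_congr rfl fun i _ => ?_
  rw [Finset.mul_sum]
  have h3 : (u i : k) * (((u i.rev)⁻¹ : kˣ) : k) =
      ∑ j, if j = i.rev then (u i : k) * (((u j)⁻¹ : kˣ) : k) else 0 := by
    rw [Finset.sum_ite_eq' Finset.univ i.rev]
    simp
  rw [h3, ← Finset.sum_sub_distrib]
  refine Finset.sum_congr rfl fun j _ => ?_
  rw [LinearMap.comp_apply, conjMat_diag]
  simp only [LinearMap.smul_apply, LinearMap.sub_apply, LinearMap.id_apply, tau_apply,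
    Matrix.smul_apply, Matrix.sub_apply, smul_eq_mul]
  rw [Matrix.single_apply, Matrix.single_apply]
  by_cases h : j = i.rev
  · have h4 : i = j.rev := by rw [h, Fin.rev_rev]
    rw [if_pos ⟨rfl, rfl⟩, if_pos ⟨h4, h⟩, if_pos h]
    ring
  · rw [if_pos ⟨rfl, rfl⟩, if_neg (fun h' => h h'.2), if_neg h]
    have : (2 : k) * 2⁻¹ = 1 := mul_inv_cancel₀ h2
    linear_combination ((u i : k) * (((u j)⁻¹ : kˣ) : k)) * this

/-! ### The homomorphism `x^∨ ∘ ω` -/

lemma expo_rev {n : ℕ} (x : Fin n → ℤ) (i : Fin (2 * n + 1)) : expo x i.rev = -expo x i := by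
  have hr : (i.rev : ℕ) = 2 * n - i := by rw [Fin.val_rev]; omega
  have hi := i.2
  unfold expo
  by_cases h1 : (i : ℕ) < n
  · rw [dif_pos h1, dif_neg (by omega), dif_pos (by omega)]
    congr 2
    apply Fin.ext
    simp only [hr]
    omega
  · by_cases h2 : n < (i : ℕ)
    · rw [dif_neg h1, dif_pos h2, dif_pos (by omega), neg_neg]
      congr 1
      apply Fin.ext
      simp only [hr]
    · rw [dif_neg h1, dif_neg h2, dif_neg (by omega), dif_neg (by omega), neg_zero]

lemma sum_expo {n : ℕ} (x : Fin n → ℤ) : ∑ i, expo x i = 0 := by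
  have h1 : ∑ i : Fin (2 * n + 1), expo x i = ∑ i : Fin (2 * n + 1), expo x i.rev :=
    (Equiv.sum_comp Fin.revPerm (fun i => expo x i)).symm
  simp_rw [expo_rev] at h1
  rw [Finset.sum_neg_distrib] at h1
  linarith

lemma prod_zpow_unit {ι : Type} {k : Type} [Field k] (s : Finset ι) (t : kˣ) (f : ι → ℤ) :
    ∏ i ∈ s, t ^ f i = t ^ (∑ i ∈ s, f i) := by
  classical
  induction s using Finset.induction_on with
  | empty => simp
  | insert a s ha ih =>
    rw [Finset.prod_insert ha, Finset.sum_insert ha, ih, _root_.zpow_add]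

/-- The cocharacter `x^∨`, with values in `SO_{2n+1}(k)`. -/
noncomputable def coch {n : ℕ} (k : Type) [Field k] (x : Fin n → ℤ) : kˣ →* SO n k where
  toFun t := ⟨diagHom (2 * n + 1) k fun i => t ^ expo x i, by
    refine ⟨?_, ?_⟩
    · change (diagHom (2 * n + 1) k fun i => t ^ expo x i).1ᵀ * formS n k *
        (diagHom (2 * n + 1) k fun i => t ^ expo x i).1 = formS n k
      rw [diagHom_coe, Matrix.diagonal_transpose]
      ext i j
      rw [Matrix.mul_diagonal, Matrix.diagonal_mul]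
      by_cases h : j = i.rev
      · rw [h, expo_rev, mul_right_comm, ← Units.val_mul, ← _root_.zpow_add, add_neg_cancel,
          _root_.zpow_zero, Units.val_one, one_mul]
      · simp [formS, h]
    · change (diagHom (2 * n + 1) k fun i => t ^ expo x i).1.det = 1
      rw [diagHom_coe, Matrix.det_diagonal, ← Units.coe_prod, prod_zpow_unit,
        sum_expo, _root_.zpow_zero, Units.val_one]⟩
  map_one' := by
    apply Subtype.ext
    change (diagHom (2 * n + 1) k fun i => (1 : kˣ) ^ expo x i) = 1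
    have : (fun i : Fin (2 * n + 1) => (1 : kˣ) ^ (expo x i)) = 1 := by
      funext i
      rw [_root_.one_zpow]
      rfl
    rw [this, map_one]
  map_mul' s t := by
    apply Subtype.ext
    change (diagHom (2 * n + 1) k fun i => (s * t : kˣ) ^ expo x i) =
      (diagHom (2 * n + 1) k fun i => (s : kˣ) ^ expo x i) *
        (diagHom (2 * n + 1) k fun i => (t : kˣ) ^ expo x i)
    rw [← map_mul]
    congr 1
    funext i
    exact _root_.mul_zpow _ _ _

/-- The homomorphism `x^∨ ∘ ω`; its component `j` is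
`σ ↦ diag (ω(σ) ^ x₁, …, ω(σ) ^ x_m, 1, ω(σ) ^ (-x_m), …, ω(σ) ^ (-x₁))` for the weight
`x j = (x₁, …, x_m)`, `m = n j`. -/
noncomputable def rbar (p : ℕ) [Fact p.Prime] {n : ι → ℕ} (k : Type) [Field k] [CharP k p]
    (x : ∀ j, Fin (n j) → ℤ) : GQ →* SOP n k :=
  MonoidHom.pi fun j => (coch k (x j)).comp (omega p k)

lemma rbar_apply (p : ℕ) [Fact p.Prime] {n : ι → ℕ} (k : Type) [Field k] [CharP k p]
    (x : ∀ j, Fin (n j) → ℤ) (σ : GQ) (j : ι) :
    rbar p k x σ j = coch k (x j) (omega p k σ) := rfl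

lemma rbar_of_omega {p : ℕ} [Fact p.Prime] {n : ι → ℕ} {k : Type} [Field k] [CharP k p]
    (x : ∀ j, Fin (n j) → ℤ) {σ : GQ} (h : omega p k σ = 1) : rbar p k x σ = 1 := by
  funext j
  rw [rbar_apply, h, map_one]
  rfl

lemma sum_sign {n : ℕ} (k : Type) [Field k] (x : Fin n → ℤ) :
    ∑ i, (((-1 : kˣ) ^ (x i) : kˣ) : k) = ((n : ℤ) - 2 * numOdd x : ℤ) := by
  have h1 : ∀ i, (((-1 : kˣ) ^ (x i) : kˣ) : k) = 1 - if Odd (x i) then 2 else 0 := by
    intro i
    rcases Int.even_or_odd (x i) with h | h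
    · rw [h.neg_one_zpow, if_neg (by rw [Int.not_odd_iff_even]; exact h)]
      simp
    · rw [h.neg_one_zpow, if_pos h]
      push_cast
      ring
  simp_rw [h1]
  rw [Finset.sum_sub_distrib, ← Finset.sum_filter]
  simp only [Finset.sum_const, Finset.card_univ, Fintype.card_fin, nsmul_eq_mul, mul_one, numOdd]
  push_cast
  ring

/-- sums over `Fin (2 n + 1)` of symmetric functions -/
lemma sum_symm {n : ℕ} {k : Type} [Field k] (f : Fin (2 * n + 1) → k) (g : Fin n → k)
    (h1 : ∀ (i : Fin n), f ⟨i, by omega⟩ = g i) (h2 : ∀ i, f i.rev = f i) :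
    ∑ i, f i = 2 * ∑ i, g i + f ⟨n, by omega⟩ := by
  let F : ℕ → k := fun i => if h : i < 2 * n + 1 then f ⟨i, h⟩ else 0
  have hF : ∑ i, f i = ∑ i ∈ Finset.range (2 * n + 1), F i := by
    rw [← Fin.sum_univ_eq_sum_range]
    refine Finset.sum_congr rfl fun i _ => ?_
    simp only [F]
    rw [dif_pos i.2]
  have hg : ∑ i, g i = ∑ i ∈ Finset.range n, F i := by
    rw [← Fin.sum_univ_eq_sum_range]
    refine Finset.sum_congr rfl fun i _ => ?_
    simp only [F]
    rw [dif_pos (by omega), ← h1]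
  have hr : ∑ i ∈ Finset.range n, F (n + 1 + i) = ∑ i ∈ Finset.range n, F i := by
    rw [← Finset.sum_range_reflect (fun i => F i) n]
    refine Finset.sum_congr rfl fun i hi => ?_
    rw [Finset.mem_range] at hi
    simp only [F]
    rw [dif_pos (by omega), dif_pos (by omega), ← h2]
    congr 1
    apply Fin.ext
    rw [Fin.val_rev]
    simp only
    omega
  have h3 : Finset.range (2 * n + 1) = Finset.range (n + 1 + n) := by
    congr 1
    omega
  rw [hF, h3, Finset.sum_range_add, Finset.sum_range_succ, hr, hg]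
  have h4 : F n = f ⟨n, by omega⟩ := by
    simp only [F]
    rw [dif_pos (by omega)]
  rw [h4]
  ring

lemma sum_expo_sign {n : ℕ} (k : Type) [Field k] (x : Fin n → ℤ) :
    ∑ i, (((-1 : kˣ) ^ (expo x i) : kˣ) : k) = ((2 * n + 1 - 4 * numOdd x : ℤ) : k) := by
  have hneg : ∀ m : ℤ, (-1 : kˣ) ^ (-m) = (-1 : kˣ) ^ m := by
    intro m
    rw [_root_.zpow_neg, ← _root_.inv_zpow, inv_neg_one]
  rw [sum_symm (fun i => (((-1 : kˣ) ^ (expo x i) : kˣ) : k))
    (fun i => (((-1 : kˣ) ^ (x i) : kˣ) : k)) ?_ ?_, sum_sign]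
  · have h1 : expo x ⟨n, by omega⟩ = 0 := by
      unfold expo
      rw [dif_neg (by simp), dif_neg (by simp)]
    simp only [h1, _root_.zpow_zero, Units.val_one]
    push_cast
    ring
  · intro i
    have h1 : expo x ⟨i, by omega⟩ = x i := by
      unfold expo
      rw [dif_pos (by simp)]
    simp only [h1]
  · intro i
    simp only [expo_rev, hneg]

lemma two_trace {n : ℕ} (k : Type) [Field k]
    (h2 : (2 : k) ≠ 0) (x : Fin n → ℤ) :
    2 * LinearMap.trace k (LieSO n k) (Ad (coch k x (-1))) =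
      (((2 * n + 1 - 4 * numOdd x : ℤ) ^ 2 - (2 * n + 1) : ℤ) : k) := by
  have hneg : ∀ m : ℤ, (-1 : kˣ) ^ (-m) = (-1 : kˣ) ^ m := by
    intro m
    rw [_root_.zpow_neg, ← _root_.inv_zpow, inv_neg_one]
  have hinv : ∀ m : ℤ, ((-1 : kˣ) ^ m)⁻¹ = (-1 : kˣ) ^ m := by
    intro m
    rw [← _root_.zpow_neg, hneg]
  have hg : (coch k x (-1)).1 = diagHom (2 * n + 1) k fun i => (-1 : kˣ) ^ expo x i := rfl
  rw [trace_Ad_diag k h2 _ _ hg]
  have h3 : ∀ i : Fin (2 * n + 1), (((-1 : kˣ) ^ expo x i : kˣ) : k) *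
      ((((-1 : kˣ) ^ expo x i.rev)⁻¹ : kˣ) : k) = 1 := by
    intro i
    rw [hinv, expo_rev, ← Units.val_mul, ← _root_.zpow_add, add_neg_cancel, _root_.zpow_zero,
      Units.val_one]
  simp_rw [h3, hinv]
  rw [sum_expo_sign]
  simp only [Finset.sum_const, Finset.card_univ, Fintype.card_fin, nsmul_eq_mul, mul_one]
  push_cast
  ring

lemma exists_conj : ∃ c : GQ, IsComplexConj c := by
  have hq : Algebra.IsAlgebraic ℚ (AlgebraicClosure ℚ) := AlgebraicClosure.isAlgebraic ℚ
  have hn : Normal ℚ (AlgebraicClosure ℚ) :=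
    { toIsAlgebraic := hq
      splits' := fun x => IsAlgClosed.splits _ }
  let ι : (AlgebraicClosure ℚ) →ₐ[ℚ] ℂ := IsAlgClosed.lift
  let _ : Algebra (AlgebraicClosure ℚ) ℂ := ι.toRingHom.toAlgebra
  have : IsScalarTower ℚ (AlgebraicClosure ℚ) ℂ :=
    IsScalarTower.of_algebraMap_eq fun q => (ι.commutes q).symm
  refine ⟨(Complex.conjAe.restrictScalars ℚ).restrictNormal (AlgebraicClosure ℚ),
    ι.toRingHom, fun z => ?_⟩
  exact AlgEquiv.restrictNormal_commutes (Complex.conjAe.restrictScalars ℚ)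
    (AlgebraicClosure ℚ) z


lemma sum_rho_two {n : ℕ} : 2 * ∑ i, rho n i = (n : ℤ) * (n + 1) := by
  have h3 : ∑ i : Fin n, rho n i = ∑ i ∈ Finset.range n, ((n : ℤ) - i) := by
    rw [← Fin.sum_univ_eq_sum_range (fun i => (n : ℤ) - i)]
    rfl
  rcases Nat.eq_zero_or_pos n with rfl | hn
  · simp
  have h4 : ((∑ i ∈ Finset.range n, i : ℕ) : ℤ) * 2 = (n : ℤ) * (n - 1) := by
    have := Finset.sum_range_id_mul_two n
    have h5 : ((n - 1 : ℕ) : ℤ) = (n : ℤ) - 1 := by omega
    rw [← h5]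
    exact_mod_cast this
  rw [h3, Finset.sum_sub_distrib]
  simp only [Finset.sum_const, Finset.card_range, nsmul_eq_mul]
  push_cast at h4
  linarith

lemma sum_parity {n : ℕ} (x : Fin n → ℤ) : (2 : ℤ) ∣ ∑ i, x i - numOdd x := by
  have h1 : (numOdd x : ℤ) = ∑ i, if Odd (x i) then (1 : ℤ) else 0 := by
    rw [← Finset.sum_filter]
    simp [numOdd]
  rw [h1, ← Finset.sum_sub_distrib]
  refine Finset.dvd_sum fun i _ => ?_
  split_ifs with h
  · obtain ⟨t, ht⟩ := h
    exact ⟨t, by rw [ht]; ring⟩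
  · rw [Int.not_odd_iff_even] at h
    obtain ⟨t, ht⟩ := h
    exact ⟨t, by rw [ht]; ring⟩

lemma odd_iff {n : ℕ} (x : Fin n → ℤ) :
    Odd (∑ i, (x i - rho n i)) ↔ Odd ((n + 1) / 2 + numOdd x) := by
  have h1 := sum_rho_two (n := n)
  obtain ⟨t, ht⟩ := sum_parity x
  obtain ⟨s, hs⟩ : ∃ s : ℤ, ∑ i, rho n i = (((n + 1) / 2 : ℕ) : ℤ) + 2 * s := by
    rcases Nat.even_or_odd' n with ⟨m, hm | hm⟩
    · refine ⟨(m : ℤ) * m, ?_⟩
      have h2 : (n + 1) / 2 = m := by omega
      rw [h2]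
      rw [hm] at h1 ⊢
      push_cast at h1
      linarith
    · refine ⟨(m : ℤ) * (m + 1), ?_⟩
      have h2 : (n + 1) / 2 = m + 1 := by omega
      rw [h2]
      rw [hm] at h1 ⊢
      push_cast at h1 ⊢
      linarith
  rw [Finset.sum_sub_distrib, hs, show ∑ i, x i = numOdd x + 2 * t by linarith]
  rw [← Int.odd_coe_nat, Nat.cast_add]
  constructor
  · rintro ⟨w, hw⟩
    exact ⟨w + 2 * s + ((((n + 1) / 2 : ℕ) : ℤ)) - t - s, by linarith⟩
  · rintro ⟨w, hw⟩
    exact ⟨w + t - s - ((((n + 1) / 2 : ℕ) : ℤ)), by linarith⟩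

lemma two_ne_zero' {p : ℕ} [Fact p.Prime] (hp : p ≠ 2) (k : Type) [Field k] [CharP k p] :
    (2 : k) ≠ 0 := by
  intro h
  have h1 : ((2 : ℕ) : k) = 0 := by exact_mod_cast h
  rw [CharP.cast_eq_zero_iff k p] at h1
  have := Nat.le_of_dvd (by norm_num) h1
  have := (Fact.out : p.Prime).two_le
  omega

lemma coprime_four {p : ℕ} [Fact p.Prime] (hp : p ≠ 2) : IsCoprime (p : ℤ) 4 := by
  have hpp : p.Prime := Fact.out
  have h3 : Nat.Coprime p 2 := (Nat.coprime_primes hpp Nat.prime_two).2 hp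
  have h4 : Nat.Coprime p (2 * 2) := Nat.Coprime.mul_right h3 h3
  have h5 : IsCoprime (p : ℤ) ((2 * 2 : ℕ) : ℤ) := Nat.isCoprime_iff_coprime.2 h4
  exact_mod_cast h5

lemma isOdd_iff (p : ℕ) [Fact p.Prime] (hp : p ≠ 2) {n : ι → ℕ} (k : Type) [Field k]
    [CharP k p] (x : ∀ j, Fin (n j) → ℤ) :
    IsOdd (rbar p k x) ↔
      (p : ℤ) ∣ ∑ j, ((n j : ℤ) - 2 * numOdd (x j)) * (n j + 1 - 2 * numOdd (x j)) := by
  have h2 := two_ne_zero' hp k
  have hE : ∀ {c : GQ} (_ : IsComplexConj c),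
      ∑ j, LinearMap.trace k (LieSO (n j) k) (Ad (rbar p k x c j)) =
        ((∑ j, (n j : ℤ) - 2 * ∑ j, (n j : ℤ) : ℤ) : k) ↔
      (p : ℤ) ∣ ∑ j, ((n j : ℤ) - 2 * numOdd (x j)) * (n j + 1 - 2 * numOdd (x j)) := by
    intro c hc
    have h3 : 2 * ∑ j, LinearMap.trace k (LieSO (n j) k) (Ad (rbar p k x c j)) =
        ∑ j, (((2 * n j + 1 - 4 * numOdd (x j) : ℤ) ^ 2 - (2 * n j + 1) : ℤ) : k) := by
      rw [Finset.mul_sum]
      refine Finset.sum_congr rfl fun j _ => ?_
      rw [rbar_apply, omega_conj k hc]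
      exact two_trace k h2 (x j)
    have h4 : ∑ j, LinearMap.trace k (LieSO (n j) k) (Ad (rbar p k x c j)) =
        ((∑ j, (n j : ℤ) - 2 * ∑ j, (n j : ℤ) : ℤ) : k) ↔
        2 * ∑ j, LinearMap.trace k (LieSO (n j) k) (Ad (rbar p k x c j)) =
          2 * ((∑ j, (n j : ℤ) - 2 * ∑ j, (n j : ℤ) : ℤ) : k) := by
      constructor
      · intro h
        rw [h]
      · intro h
        exact mul_left_cancel₀ h2 h
    rw [h4, h3, ← sub_eq_zero]
    have h5 : ∑ j, (((2 * n j + 1 - 4 * numOdd (x j) : ℤ) ^ 2 - (2 * n j + 1) : ℤ) : k) -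
        2 * ((∑ j, (n j : ℤ) - 2 * ∑ j, (n j : ℤ) : ℤ) : k) =
        ((4 * ∑ j, ((n j : ℤ) - 2 * numOdd (x j)) * (n j + 1 - 2 * numOdd (x j)) : ℤ) : k) := by
      have hI : ∑ j, ((2 * (n j : ℤ) + 1 - 4 * numOdd (x j)) ^ 2 - (2 * (n j : ℤ) + 1)) -
          2 * (∑ j, (n j : ℤ) - 2 * ∑ j, (n j : ℤ)) =
          4 * ∑ j, ((n j : ℤ) - 2 * numOdd (x j)) * (n j + 1 - 2 * numOdd (x j)) := by
        have h6 : 2 * (∑ j, (n j : ℤ) - 2 * ∑ j, (n j : ℤ)) = ∑ j, (-2 * (n j : ℤ)) := by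
          rw [← Finset.mul_sum]
          ring
        rw [h6, ← Finset.sum_sub_distrib, Finset.mul_sum]
        refine Finset.sum_congr rfl fun j _ => ?_
        ring
      rw [← hI, Int.cast_sub, Int.cast_sum, Int.cast_mul]
      norm_num
    rw [h5, CharP.intCast_eq_zero_iff k p]
    exact ⟨fun h => (coprime_four hp).dvd_of_dvd_mul_left h, fun h => Dvd.dvd.mul_left h 4⟩
  constructor
  · intro h
    obtain ⟨c, hc⟩ := exists_conj
    exact (hE hc).1 (h c hc)
  · intro h c hc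
    exact (hE hc).2 h

lemma hyp_iff (p : ℕ) [Fact p.Prime] (hp : p ≠ 2) {n : ι → ℕ} (k : Type) [Field k]
    [CharP k p] (x : ∀ j, Fin (n j) → ℤ) :
    Hypotheses p k x ∅ (rbar p k x) ↔ (∀ j, StronglyRegular (x j)) ∧
      (p : ℤ) ∣ ∑ j, ((n j : ℤ) - 2 * numOdd (x j)) * (n j + 1 - 2 * numOdd (x j)) := by
  rw [← isOdd_iff p hp k x]
  constructor
  · intro h
    exact ⟨h.regular, h.odd⟩
  rintro ⟨hreg, hodd⟩
  refine ⟨hreg, by simp, ?_, hodd, ?_, by simp, ?_⟩
  · refine Subgroup.isOpen_mono (H₁ := (omega p k).ker) ?_ (isOpen_omega k)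
    intro σ hσ
    exact rbar_of_omega x hσ
  · intro A _
    refine ⟨1, fun σ _ j => ?_⟩
    have h1 : ((1 : SOP n k)⁻¹ * rbar p k x σ * 1 : SOP n k) = rbar p k x σ := by
      rw [inv_one, one_mul, mul_one]
    rw [h1]
    have h3 : (rbar p k x σ j).1.1 =
        Matrix.diagonal fun i => ((omega p k σ ^ expo (x j) i : kˣ) : k) := rfl
    refine ⟨?_, fun _ i => ?_⟩
    · rw [h3]
      exact Matrix.blockTriangular_diagonal _
    · rw [h3, Matrix.diagonal_apply_eq]
  · intro l hl _ hlp A hA σ hσ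
    exact rbar_of_omega x (omega_unramified k hl hlp hA hσ)

/-- A strongly regular weight with a given number of odd entries. -/
def wt (n a : ℕ) (i : Fin n) : ℤ := 4 * ((n : ℤ) - i) + if (i : ℕ) < a then 1 else 0

lemma wt_regular (n a : ℕ) : StronglyRegular (wt n a) := by
  refine ⟨fun i hi => ?_, fun i hi hi' => ?_⟩
  · simp only [wt]
    push_cast
    split_ifs <;> omega
  · simp only [wt]
    split_ifs <;> omega

lemma numOdd_wt {n a : ℕ} (h : a ≤ n) : numOdd (wt n a) = a := by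
  have h1 : (Finset.univ.filter fun i : Fin n => Odd (wt n a i)) =
      Finset.univ.filter fun i : Fin n => (i : ℕ) < a := by
    ext i
    rw [Finset.mem_filter, Finset.mem_filter]
    refine and_congr_right fun _ => ?_
    unfold wt
    by_cases h2 : (i : ℕ) < a
    · rw [if_pos h2]
      exact ⟨fun _ => h2, fun _ => ⟨2 * ((n : ℤ) - i), by ring⟩⟩
    · rw [if_neg h2, add_zero]
      refine ⟨fun h3 => absurd h3 (Int.not_odd_iff_even.2 ⟨2 * ((n : ℤ) - i), by ring⟩),
        fun h3 => absurd h3 h2⟩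
  rw [numOdd, h1]
  rw [Fin.card_filter_val_lt]
  exact min_eq_right h

lemma numOdd_le {n : ℕ} (x : Fin n → ℤ) : numOdd x ≤ n := by
  have := Finset.card_filter_le (Finset.univ : Finset (Fin n)) (fun i => Odd (x i))
  simpa [numOdd] using this

/-- the parity of the triangular numbers -/
lemma odd_tri (i : ℕ) : Odd (i * (i + 1) / 2) ↔ i % 4 = 1 ∨ i % 4 = 2 := by
  obtain ⟨q, hq⟩ : ∃ q, i = 4 * q + i % 4 := ⟨i / 4, by omega⟩
  have hr : i % 4 = 0 ∨ i % 4 = 1 ∨ i % 4 = 2 ∨ i % 4 = 3 := by omega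
  rcases hr with h | h | h | h <;> rw [h] at hq
  · have h1 : i * (i + 1) = 2 * (2 * (q * (4 * q + 1))) := by rw [hq]; ring
    rw [h1, Nat.mul_div_cancel_left _ two_pos, Nat.odd_iff]
    omega
  · have h1 : i * (i + 1) = 2 * (2 * (q * (4 * q + 3)) + 1) := by rw [hq]; ring
    rw [h1, Nat.mul_div_cancel_left _ two_pos, Nat.odd_iff]
    omega
  · have h1 : i * (i + 1) = 2 * (2 * (4 * (q * q) + 5 * q + 1) + 1) := by rw [hq]; ring
    rw [h1, Nat.mul_div_cancel_left _ two_pos, Nat.odd_iff]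
    omega
  · have h1 : i * (i + 1) = 2 * (2 * ((4 * q + 3) * (q + 1))) := by rw [hq]; ring
    rw [h1, Nat.mul_div_cancel_left _ two_pos, Nat.odd_iff]
    omega

lemma two_tri (i : ℕ) : 2 * ((i * (i + 1) / 2 : ℕ) : ℤ) = (i : ℤ) * (i + 1) := by
  have h : 2 ∣ i * (i + 1) := (Nat.even_mul_succ_self i).two_dvd
  have := Nat.mul_div_cancel' h
  exact_mod_cast this

/-- from `a` to the triangular number -/
lemma tri_of (m a : ℕ) (ha : a ≤ m) : ∃ i ≤ m,
    ((m : ℤ) - 2 * a) * (m + 1 - 2 * a) = (i : ℤ) * (i + 1) ∧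
      (Odd ((m + 1) / 2 + a) ↔ Odd (i * (i + 1) / 2)) := by
  by_cases h : 2 * a ≤ m
  · refine ⟨m - 2 * a, by omega, ?_, ?_⟩
    · rw [Nat.cast_sub h]
      push_cast
      ring
    · rw [odd_tri, Nat.odd_iff]
      omega
  · refine ⟨2 * a - m - 1, by omega, ?_, ?_⟩
    · have h1 : ((2 * a - m - 1 : ℕ) : ℤ) = 2 * a - m - 1 := by omega
      rw [h1]
      ring
    · rw [odd_tri, Nat.odd_iff]
      omega

/-- from the triangular number to `a` -/
lemma of_tri (m i : ℕ) (hi : i ≤ m) : ∃ a ≤ m,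
    ((m : ℤ) - 2 * a) * (m + 1 - 2 * a) = (i : ℤ) * (i + 1) ∧
      (Odd ((m + 1) / 2 + a) ↔ Odd (i * (i + 1) / 2)) := by
  by_cases h : i % 2 = m % 2
  · refine ⟨(m - i) / 2, by omega, ?_, ?_⟩
    · have h1 : 2 * (((m - i) / 2 : ℕ) : ℤ) = m - i := by omega
      rw [show (m : ℤ) - 2 * (((m - i) / 2 : ℕ) : ℤ) = i by rw [h1]; ring,
        show (m : ℤ) + 1 - 2 * (((m - i) / 2 : ℕ) : ℤ) = i + 1 by rw [h1]; ring]
    · rw [odd_tri, Nat.odd_iff]
      omega
  · refine ⟨(m + i + 1) / 2, by omega, ?_, ?_⟩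
    · have h1 : 2 * (((m + i + 1) / 2 : ℕ) : ℤ) = m + i + 1 := by omega
      rw [show (m : ℤ) - 2 * (((m + i + 1) / 2 : ℕ) : ℤ) = -(i + 1) by rw [h1]; ring,
        show (m : ℤ) + 1 - 2 * (((m + i + 1) / 2 : ℕ) : ℤ) = -i by rw [h1]; ring]
      ring
    · rw [odd_tri, Nat.odd_iff]
      omega

/-- The single factor `Sp_{2m}`: the condition of part 3 holds iff `p ≤ m` or
`p = m + 1 ≡ 3 mod 4`. -/
theorem single_factor (p m : ℕ) (hp : p.Prime) (hp2 : p ≠ 2) :
    (∃ i ≤ m, Odd (i * (i + 1) / 2) ∧ p ∣ i * (i + 1) / 2) ↔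
      (p ≤ m ∨ (p = m + 1 ∧ p % 4 = 3)) := by
  have hodd : p % 2 = 1 := by
    rcases hp.eq_two_or_odd with h | h
    · exact absurd h hp2
    · exact h
  constructor
  · rintro ⟨i, hi, h1, h2⟩
    have h3 : p ∣ i * (i + 1) := h2.trans (Nat.div_dvd_of_dvd (Nat.even_mul_succ_self i).two_dvd)
    rw [odd_tri] at h1
    rcases (hp.dvd_mul).1 h3 with h | h
    · have := Nat.le_of_dvd (by omega) h
      omega
    · have := Nat.le_of_dvd (by omega) h
      by_cases h5 : p ≤ m
      · exact Or.inl h5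
      · have : p = m + 1 := by omega
        refine Or.inr ⟨this, ?_⟩
        omega
  · intro h
    have h4 : p % 4 = 1 ∨ p % 4 = 3 := by omega
    rcases h4 with h4 | h4
    · refine ⟨p, by omega, (odd_tri p).2 (Or.inl h4), ?_⟩
      have h5 : p * (p + 1) = 2 * (p * ((p + 1) / 2)) := by
        have : 2 * ((p + 1) / 2) = p + 1 := by omega
        rw [mul_left_comm, this]
      rw [h5, Nat.mul_div_cancel_left _ two_pos]
      exact dvd_mul_right _ _
    · refine ⟨p - 1, by omega, (odd_tri (p - 1)).2 (Or.inr (by omega)), ?_⟩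
      have h6 : p - 1 + 1 = p := by omega
      have h5 : (p - 1) * (p - 1 + 1) = 2 * (p * ((p - 1) / 2)) := by
        have : 2 * ((p - 1) / 2) = p - 1 := by omega
        rw [h6, mul_left_comm, this, mul_comm]
      rw [h5, Nat.mul_div_cancel_left _ two_pos]
      exact dvd_mul_right _ _

lemma isCoch_iff (p : ℕ) [Fact p.Prime] {n : ι → ℕ} (k : Type) [Field k] [CharP k p]
    (x : ∀ j, Fin (n j) → ℤ) (r : GQ →* SOP n k) : IsCoch p k x r ↔ r = rbar p k x := by
  constructor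
  · intro h
    ext1 σ
    funext j
    apply Subtype.ext
    apply Units.ext
    exact h σ j
  · rintro rfl σ j
    rfl

theorem main (p : ℕ) [Fact p.Prime] (hp : p ≠ 2) (ι : Type) [Fintype ι] (n : ι → ℕ) :
    (∀ (x : ∀ j, Fin (n j) → ℤ) (j : ι), Odd (∑ i, (x j i - rho (n j) i)) →
      ∀ (V : Type) [AddCommGroup V] [Module ℚ V] (π : Representation ℚ (SpP n ℚ) V),
        IsIrreducibleOfHighestWeight π (fun j i => x j i - rho (n j) i) →
        ∀ (M : Submodule ℤ V) (hM : IsStableLattice π M) (k : Type) [Field k] [Finite k]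
          [CharP k p] (N i : ℕ), Subsingleton (H hM N k i)) ∧
    (∀ (x : ∀ j, Fin (n j) → ℤ) (k : Type) [Field k] [Finite k] [CharP k p],
      ∃ r : GQ →* SOP n k, IsCoch p k x r ∧ (Hypotheses p k x ∅ r ↔ (∀ j, StronglyRegular (x j)) ∧
        (p : ℤ) ∣ ∑ j, ((n j : ℤ) - 2 * numOdd (x j)) * (n j + 1 - 2 * numOdd (x j)))) ∧
    ((∃ x : ∀ j, Fin (n j) → ℤ, (∃ j, Odd (∑ i, (x j i - rho (n j) i))) ∧
      ∀ (k : Type) [Field k] [Finite k] [CharP k p],
        ∃ r : GQ →* SOP n k, IsCoch p k x r ∧ Hypotheses p k x ∅ r) ↔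
      ∃ i : ι → ℕ, (∀ j, i j ≤ n j) ∧ (∃ j, Odd (i j * (i j + 1) / 2)) ∧
        p ∣ ∑ j, i j * (i j + 1) / 2) := by
  have hpp : p.Prime := Fact.out
  have hdvd : ∀ i : ι → ℕ, (p : ℤ) ∣ ∑ j, (i j : ℤ) * (i j + 1) ↔
      p ∣ ∑ j, i j * (i j + 1) / 2 := by
    intro i
    have h1 : ∑ j, (i j : ℤ) * (i j + 1) = 2 * ((∑ j, i j * (i j + 1) / 2 : ℕ) : ℤ) := by
      rw [Nat.cast_sum, Finset.mul_sum]
      exact Finset.sum_congr rfl fun j _ => (two_tri (i j)).symm
    have h2 : IsCoprime (p : ℤ) 2 := by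
      have h3 := coprime_four (p := p) hp
      rw [show (4 : ℤ) = 2 * 2 by norm_num] at h3
      exact h3.of_mul_right_left
    rw [h1]
    constructor
    · intro h
      exact_mod_cast h2.dvd_of_dvd_mul_left h
    · intro h
      exact Dvd.dvd.mul_left (by exact_mod_cast h) 2
  refine ⟨?_, ?_, ?_⟩
  · intro x j hx V _ _ π hπ M hM k _ _ _ N i
    exact vanishing hπ j hx hM N k (two_ne_zero' hp k) i
  · intro x k _ _ _
    exact ⟨rbar p k x, (isCoch_iff p k x _).2 rfl, hyp_iff p hp k x⟩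
  · constructor
    · rintro ⟨x, ⟨j0, hx⟩, hk⟩
      obtain ⟨r, hr, hk'⟩ := hk (ZMod p)
      rw [(isCoch_iff p (ZMod p) x r).1 hr] at hk'
      have h1 := ((hyp_iff p hp (ZMod p) x).1 hk').2
      choose i hi h2 h3 using fun j => tri_of (n j) (numOdd (x j)) (numOdd_le (x j))
      refine ⟨i, hi, ⟨j0, (h3 j0).1 ((odd_iff (x j0)).1 hx)⟩, ?_⟩
      rw [← hdvd, ← Finset.sum_congr rfl fun j _ => h2 j]
      exact h1
    · rintro ⟨i, hi, ⟨j0, hodd⟩, hd⟩
      choose a ha h2 h3 using fun j => of_tri (n j) (i j) (hi j)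
      refine ⟨fun j => wt (n j) (a j), ⟨j0, ?_⟩, fun k _ _ _ => ?_⟩
      · rw [odd_iff, numOdd_wt (ha j0)]
        exact (h3 j0).2 hodd
      · refine ⟨rbar p k _, (isCoch_iff p k _ _).2 rfl, ?_⟩
        rw [hyp_iff p hp k]
        refine ⟨fun j => wt_regular _ _, ?_⟩
        simp only [fun j => numOdd_wt (ha j)]
        rw [Finset.sum_congr rfl fun j _ => h2 j, hdvd]
        exact hd


end

end Pool.Agent.H35.SP
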