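import Mathlib
import Pool.Graph.R_seed8.H320R3.CenterKills

set_option autoImplicit false

open CategoryTheory TensorProduct Matrix

namespace Pool.Agent.Results.MP_f2eb9c_nt.SymplecticGroups

noncomputable section

/-! ### The Galois side -/

/-- The algebraic closure of `ℚ`. -/
noncomputable abbrev Qbar : Type := AlgebraicClosure ℚ

/-- The absolute Galois group of `ℚ` (with the Krull topology). -/
noncomputable abbrev GQ : Type := AlgebraicClosure ℚ ≃ₐ[ℚ] AlgebraicClosure ℚ

/-- `A` is (the valuation ring of) a place of `Qbar` above the prime `ℓ`. -/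
def Above (l : ℕ) (A : ValuationSubring Qbar) : Prop := (l : Qbar) ∈ A.nonunits

/-- The decomposition group of a place of `Qbar`. -/
abbrev decomp (A : ValuationSubring Qbar) : Subgroup GQ := A.decompositionSubgroup ℚ

/-- The inertia group of a place of `Qbar`, as a subgroup of the Galois group. -/
def inertia (A : ValuationSubring Qbar) : Subgroup GQ :=
  (A.inertiaSubgroup ℚ).map (A.decompositionSubgroup ℚ).subtype

/-- `c` is a complex conjugation: it is induced by complex conjugation of `ℂ` through some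
embedding of `Qbar` in `ℂ`. -/
def IsComplexConj (c : GQ) : Prop :=
  ∃ ι : Qbar →+* ℂ, ∀ z : Qbar, ι (c z) = (starRingEnd ℂ) (ι z)

/-- The mod `p` cyclotomic character, with values in the units of a field `k` of
characteristic `p`: the reduction of the `p`-adic cyclotomic character. -/
noncomputable def omega (p : ℕ) [Fact p.Prime] (k : Type) [Field k] [CharP k p] : GQ →* kˣ :=
  (Units.map (ZMod.castHom (dvd_refl p) k).toMonoidHom).comp
    ((Units.map (PadicInt.toZMod (p := p)).toMonoidHom).comp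
      ((cyclotomicCharacter Qbar p).comp
        { toFun := fun σ : GQ => (σ : Qbar ≃+* Qbar)
          map_one' := rfl
          map_mul' := fun _ _ => rfl }))

/-! ### The group `Sp_{2n}` -/

/-- The group `G(R) = Sp_{2n}(R)` of the matrices `A` with `A * J * Aᵀ = J`,
`J = (0, -1; 1, 0)` in blocks of size `n`. It is the simply connected split group of type `C_n`. -/
abbrev Sp (n : ℕ) (R : Type) [CommRing R] : Type := symplecticGroup (Fin n) R

/-- A homomorphism of rings induces a homomorphism of symplectic groups. -/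
def spMap (n : ℕ) {R S : Type} [CommRing R] [CommRing S] (f : R →+* S) : Sp n R →* Sp n S where
  toFun A := ⟨A.1.map f, SymplecticGroup.map_mem A.2 f⟩
  map_one' := by
    apply Subtype.ext
    change (1 : Matrix (Fin n ⊕ Fin n) (Fin n ⊕ Fin n) R).map f = 1
    exact Matrix.map_one f (map_zero f) (map_one f)
  map_mul' A B := by
    apply Subtype.ext
    change (A.1 * B.1).map f = A.1.map f * B.1.map f
    exact Matrix.map_mul

lemma inv_blocks {n : ℕ} {R : Type} [CommRing R] (g : Sp n R) :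
    ((g⁻¹ : Sp n R) : Matrix (Fin n ⊕ Fin n) (Fin n ⊕ Fin n) R) =
      fromBlocks (g.1.toBlocks₂₂)ᵀ (-(g.1.toBlocks₁₂)ᵀ) (-(g.1.toBlocks₂₁)ᵀ) (g.1.toBlocks₁₁)ᵀ := by
  rw [SymplecticGroup.coe_inv]
  conv_lhs => rw [← fromBlocks_toBlocks (g : Matrix (Fin n ⊕ Fin n) (Fin n ⊕ Fin n) R)]
  rw [J, fromBlocks_neg, fromBlocks_transpose, fromBlocks_multiply, fromBlocks_multiply]
  simp

/-- The Borel subgroup of `Sp_{2n}(R)`: the matrices `(A, B; 0, D)` with `A` upper triangular and
`D` (the inverse transpose of `A`) lower triangular. -/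
def borel (n : ℕ) (R : Type) [CommRing R] : Subgroup (Sp n R) where
  carrier := {g : Sp n R | (∀ i j, g.1 (Sum.inr i) (Sum.inl j) = 0) ∧
    (∀ i j, j < i → g.1 (Sum.inl i) (Sum.inl j) = 0) ∧
    (∀ i j, i < j → g.1 (Sum.inr i) (Sum.inr j) = 0)}
  mul_mem' := fun {a b} ha hb => by
    obtain ⟨a1, a2, a3⟩ := ha
    obtain ⟨b1, b2, b3⟩ := hb
    refine ⟨fun i j => ?_, fun i j hij => ?_, fun i j hij => ?_⟩
    · change (a.1 * b.1) (Sum.inr i) (Sum.inl j) = 0
      rw [Matrix.mul_apply, Fintype.sum_sum_type]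
      simp [a1, b1]
    · change (a.1 * b.1) (Sum.inl i) (Sum.inl j) = 0
      rw [Matrix.mul_apply, Fintype.sum_sum_type]
      have h1 : ∀ c, a.1 (Sum.inl i) (Sum.inl c) * b.1 (Sum.inl c) (Sum.inl j) = 0 := by
        intro c
        rcases lt_or_ge c i with h | h
        · rw [a2 i c h, zero_mul]
        · rw [b2 c j (lt_of_lt_of_le hij h), mul_zero]
      simp [h1, b1]
    · change (a.1 * b.1) (Sum.inr i) (Sum.inr j) = 0
      rw [Matrix.mul_apply, Fintype.sum_sum_type]
      have h1 : ∀ c, a.1 (Sum.inr i) (Sum.inr c) * b.1 (Sum.inr c) (Sum.inr j) = 0 := by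
        intro c
        rcases lt_or_ge i c with h | h
        · rw [a3 i c h, zero_mul]
        · rw [b3 c j (lt_of_le_of_lt h hij), mul_zero]
      simp [h1, a1]
  one_mem' := by
    refine ⟨fun i j => ?_, fun i j hij => ?_, fun i j hij => ?_⟩
    · change (1 : Matrix (Fin n ⊕ Fin n) (Fin n ⊕ Fin n) R) (Sum.inr i) (Sum.inl j) = 0
      rw [Matrix.one_apply_ne (by simp)]
    · change (1 : Matrix (Fin n ⊕ Fin n) (Fin n ⊕ Fin n) R) (Sum.inl i) (Sum.inl j) = 0
      rw [Matrix.one_apply_ne (by simpa using hij.ne')]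
    · change (1 : Matrix (Fin n ⊕ Fin n) (Fin n ⊕ Fin n) R) (Sum.inr i) (Sum.inr j) = 0
      rw [Matrix.one_apply_ne (by simpa using hij.ne)]
  inv_mem' := fun {a} ha => by
    obtain ⟨a1, a2, a3⟩ := ha
    have h := inv_blocks a
    refine ⟨fun i j => ?_, fun i j hij => ?_, fun i j hij => ?_⟩
    · change ((a⁻¹ : Sp n R) : Matrix (Fin n ⊕ Fin n) (Fin n ⊕ Fin n) R) _ _ = 0
      rw [h, fromBlocks_apply₂₁, Matrix.neg_apply, Matrix.transpose_apply, Matrix.toBlocks₂₁,
        Matrix.of_apply, a1, neg_zero]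
    · change ((a⁻¹ : Sp n R) : Matrix (Fin n ⊕ Fin n) (Fin n ⊕ Fin n) R) _ _ = 0
      rw [h, fromBlocks_apply₁₁, Matrix.transpose_apply, Matrix.toBlocks₂₂,
        Matrix.of_apply, a3 _ _ hij]
    · change ((a⁻¹ : Sp n R) : Matrix (Fin n ⊕ Fin n) (Fin n ⊕ Fin n) R) _ _ = 0
      rw [h, fromBlocks_apply₂₂, Matrix.transpose_apply, Matrix.toBlocks₁₁,
        Matrix.of_apply, a2 _ _ hij]

/-- `Γ₀(N)`: the preimage in `Sp_{2n}(ℤ)` of the Borel subgroup of `Sp_{2n}(ℤ/N)`. -/
def Gamma0 (n N : ℕ) : Subgroup (Sp n ℤ) :=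
  (borel n (ZMod N)).comap (spMap n (Int.castRingHom (ZMod N)))

/-! ### Weights of `Sp_{2n}` -/

/-- The character `diag(t₁, …, t_n, t₁⁻¹, …, t_n⁻¹) ↦ ∏ tᵢ ^ xᵢ` of the diagonal torus of
`Sp_{2n}` is strongly regular when `⟨x, α^∨⟩ ≥ 2` for every simple coroot: these numbers are
`x i - x (i + 1)` and `x n`. -/
def StronglyRegular {n : ℕ} (x : Fin n → ℤ) : Prop :=
  (∀ (i : ℕ) (hi : i + 1 < n), 2 ≤ x ⟨i, by omega⟩ - x ⟨i + 1, hi⟩) ∧
    ∀ (i : ℕ) (hi : i < n), i + 1 = n → 2 ≤ x ⟨i, hi⟩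

/-- The half-sum `ρ` of the positive roots of `Sp_{2n}`: `ρ = (n, n - 1, …, 1)`. -/
def rho (n : ℕ) (i : Fin n) : ℤ := (n : ℤ) - i

/-- `π` is an irreducible representation of `Sp_{2n}(ℚ)` over `ℚ` with a highest weight vector of
weight `wt`. -/
structure IsIrreducibleOfHighestWeight {n : ℕ} {V : Type} [AddCommGroup V] [Module ℚ V]
    (π : Representation ℚ (Sp n ℚ) V) (wt : Fin n → ℤ) : Prop where
  irreducible : ∀ W : Submodule ℚ V, (∀ g, ∀ w ∈ W, π g w ∈ W) → W = ⊥ ∨ W = ⊤
  highest : ∃ v : V, v ≠ 0 ∧ ∀ b ∈ borel n ℚ,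
    π b v = (∏ i, (b.1 (Sum.inl i) (Sum.inl i)) ^ (wt i)) • v

/-- `M` is a lattice in `V` stable under `Sp_{2n}(ℤ)`. -/
structure IsStableLattice {n : ℕ} {V : Type} [AddCommGroup V] [Module ℚ V]
    (π : Representation ℚ (Sp n ℚ) V) (M : Submodule ℤ V) : Prop where
  fg : M.FG
  span : Submodule.span ℚ (M : Set V) = ⊤
  stable : ∀ g : Sp n ℤ, ∀ m ∈ M, π (spMap n (Int.castRingHom ℚ) g) m ∈ M

/-- The action of `Γ₀(N)` on a stable lattice. -/
noncomputable def latticeRep {n : ℕ} {V : Type} [AddCommGroup V] [Module ℚ V]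
    {π : Representation ℚ (Sp n ℚ) V} {M : Submodule ℤ V} (hM : IsStableLattice π M) (N : ℕ) :
    Representation ℤ (Gamma0 n N) M where
  toFun g := ((π (spMap n (Int.castRingHom ℚ) (g : Sp n ℤ))).restrictScalars
    ℤ).restrict (fun m hm => hM.stable _ m hm)
  map_one' := by
    ext m
    simp
  map_mul' g h := by
    ext m
    change π (spMap n (Int.castRingHom ℚ) ((g : Sp n ℤ) * (h : Sp n ℤ))) m.1 =
      π (spMap n (Int.castRingHom ℚ) (g : Sp n ℤ))
        (π (spMap n (Int.castRingHom ℚ) (h : Sp n ℤ)) m.1)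
    rw [map_mul, map_mul, Module.End.mul_apply]

/-- The action of `Γ₀(N)` on `M ⊗ k`. -/
noncomputable def modRep {n : ℕ} {V : Type} [AddCommGroup V] [Module ℚ V]
    {π : Representation ℚ (Sp n ℚ) V} {M : Submodule ℤ V} (hM : IsStableLattice π M) (N : ℕ)
    (k : Type) [Field k] : Representation k (Gamma0 n N) (k ⊗[ℤ] M) where
  toFun g := (latticeRep hM N g).baseChange k
  map_one' := by
    ext m
    simp
  map_mul' g h := by
    ext m
    simp

/-- The cohomology group `H^i(Γ₀(N), M ⊗ k)`. -/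
noncomputable abbrev H {n : ℕ} {V : Type} [AddCommGroup V] [Module ℚ V]
    {π : Representation ℚ (Sp n ℚ) V} {M : Submodule ℤ V} (hM : IsStableLattice π M) (N : ℕ)
    (k : Type) [Field k] (i : ℕ) : ModuleCat k :=
  groupCohomology (Rep.of (modRep hM N k)) i

/-! ### The dual group `SO_{2n+1}` -/

/-- The matrix of the split quadratic form, with the entries `1` on the antidiagonal. -/
def formS (n : ℕ) (k : Type) [Field k] : Matrix (Fin (2 * n + 1)) (Fin (2 * n + 1)) k :=
  Matrix.of fun i j => if j = Fin.rev i then 1 else 0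

/-- The dual group `G^∨(k) = SO_{2n+1}(k)` (`k` of characteristic different from `2`). -/
def SO (n : ℕ) (k : Type) [Field k] : Subgroup (GL (Fin (2 * n + 1)) k) where
  carrier := {g | g.1ᵀ * formS n k * g.1 = formS n k ∧ g.1.det = 1}
  mul_mem' := fun {a b} ha hb => by
    refine ⟨?_, ?_⟩
    · rw [Units.val_mul, Matrix.transpose_mul]
      calc b.1ᵀ * a.1ᵀ * formS n k * (a.1 * b.1) = b.1ᵀ * (a.1ᵀ * formS n k * a.1) * b.1 := by
            simp only [Matrix.mul_assoc]
        _ = formS n k := by rw [ha.1, hb.1]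
    · rw [Units.val_mul, Matrix.det_mul, ha.2, hb.2, one_mul]
  one_mem' := by
    refine ⟨?_, ?_⟩ <;> simp
  inv_mem' := fun {a} ha => by
    have h1 : a.1 * (a⁻¹).1 = 1 := by rw [← Units.val_mul, mul_inv_cancel]; rfl
    have h2 : (a⁻¹).1ᵀ * a.1ᵀ = 1 := by rw [← Matrix.transpose_mul, h1, Matrix.transpose_one]
    refine ⟨?_, ?_⟩
    · calc (a⁻¹).1ᵀ * formS n k * (a⁻¹).1 =
            (a⁻¹).1ᵀ * (a.1ᵀ * formS n k * a.1) * (a⁻¹).1 := by rw [ha.1]
        _ = ((a⁻¹).1ᵀ * a.1ᵀ) * formS n k * (a.1 * (a⁻¹).1) := by simp only [Matrix.mul_assoc]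
        _ = formS n k := by rw [h1, h2, Matrix.one_mul, Matrix.mul_one]
    · have h3 := congrArg Matrix.det h1
      rw [Matrix.det_mul, ha.2, one_mul, Matrix.det_one] at h3
      exact h3

/-- The Lie algebra of `SO_{2n+1}` over `k`. -/
def LieSO (n : ℕ) (k : Type) [Field k] :
    Submodule k (Matrix (Fin (2 * n + 1)) (Fin (2 * n + 1)) k) where
  carrier := {X | Xᵀ * formS n k + formS n k * X = 0}
  add_mem' := fun {X Y} hX hY => by
    change (X + Y)ᵀ * formS n k + formS n k * (X + Y) = 0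
    have h1 : Xᵀ * formS n k + formS n k * X = 0 := hX
    have h2 : Yᵀ * formS n k + formS n k * Y = 0 := hY
    rw [Matrix.transpose_add, Matrix.add_mul, Matrix.mul_add, add_add_add_comm, h1, h2, add_zero]
  zero_mem' := by
    change (0 : Matrix (Fin (2 * n + 1)) (Fin (2 * n + 1)) k)ᵀ * formS n k + formS n k * 0 = 0
    simp
  smul_mem' := fun c X hX => by
    have h1 : Xᵀ * formS n k + formS n k * X = 0 := hX
    change (c • X)ᵀ * formS n k + formS n k * (c • X) = 0
    rw [Matrix.transpose_smul, Matrix.smul_mul, Matrix.mul_smul, ← smul_add, h1, smul_zero]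

/-- Conjugation by `g` on matrices. -/
noncomputable def conjMat {m : ℕ} {k : Type} [Field k] (g : GL (Fin m) k) :
    Matrix (Fin m) (Fin m) k →ₗ[k] Matrix (Fin m) (Fin m) k :=
  (LinearMap.mulLeft k (g : Matrix (Fin m) (Fin m) k)).comp
    (LinearMap.mulRight k ((g⁻¹ : GL (Fin m) k) : Matrix (Fin m) (Fin m) k))

lemma conjMat_mem {n : ℕ} {k : Type} [Field k] (g : SO n k)
    (X : Matrix (Fin (2 * n + 1)) (Fin (2 * n + 1)) k) (hX : X ∈ LieSO n k) :
    conjMat g.1 X ∈ LieSO n k := by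
  have hX' : Xᵀ * formS n k + formS n k * X = 0 := hX
  have hg := g.2.1
  have hi := (g⁻¹ : SO n k).2.1
  have h1 : g.1.1 * (g.1⁻¹).1 = 1 := by rw [← Units.val_mul, mul_inv_cancel]; rfl
  have h1' : (g.1⁻¹).1 * g.1.1 = 1 := by rw [← Units.val_mul, inv_mul_cancel]; rfl
  have h2 : (g.1⁻¹).1ᵀ * g.1.1ᵀ = 1 := by rw [← Matrix.transpose_mul, h1, Matrix.transpose_one]
  -- `gᵀ S = S g⁻¹` and `S g = (g⁻¹)ᵀ S`
  have h3 : g.1.1ᵀ * formS n k = formS n k * (g.1⁻¹).1 := by
    calc g.1.1ᵀ * formS n k = g.1.1ᵀ * formS n k * (g.1.1 * (g.1⁻¹).1) := by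
          rw [h1, Matrix.mul_one]
      _ = (g.1.1ᵀ * formS n k * g.1.1) * (g.1⁻¹).1 := by simp only [Matrix.mul_assoc]
      _ = formS n k * (g.1⁻¹).1 := by rw [hg]
  have h4 : formS n k * g.1.1 = (g.1⁻¹).1ᵀ * formS n k := by
    calc formS n k * g.1.1 = ((g.1⁻¹).1ᵀ * g.1.1ᵀ) * (formS n k * g.1.1) := by
          rw [h2, Matrix.one_mul]
      _ = (g.1⁻¹).1ᵀ * (g.1.1ᵀ * formS n k * g.1.1) := by simp only [Matrix.mul_assoc]
      _ = (g.1⁻¹).1ᵀ * formS n k := by rw [hg]
  change (g.1.1 * (X * (g.1⁻¹).1))ᵀ * formS n k + formS n k * (g.1.1 * (X * (g.1⁻¹).1)) = 0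
  calc (g.1.1 * (X * (g.1⁻¹).1))ᵀ * formS n k + formS n k * (g.1.1 * (X * (g.1⁻¹).1))
      = (g.1⁻¹).1ᵀ * Xᵀ * (g.1.1ᵀ * formS n k) + (formS n k * g.1.1) * X * (g.1⁻¹).1 := by
        rw [Matrix.transpose_mul, Matrix.transpose_mul]
        simp only [Matrix.mul_assoc]
    _ = (g.1⁻¹).1ᵀ * (Xᵀ * formS n k + formS n k * X) * (g.1⁻¹).1 := by
        rw [h3, h4, Matrix.mul_add, Matrix.add_mul]
        simp only [Matrix.mul_assoc]
    _ = 0 := by rw [hX', Matrix.mul_zero, Matrix.zero_mul]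

/-- The adjoint action of `g` on the Lie algebra of `SO_{2n+1}`. -/
noncomputable def Ad {n : ℕ} {k : Type} [Field k] (g : SO n k) : LieSO n k →ₗ[k] LieSO n k :=
  (conjMat g.1).restrict (conjMat_mem g)

/-- The cocharacter `x^∨` of the diagonal torus of `SO_{2n+1}` that corresponds to the character
`x` of the torus of `Sp_{2n}` is `t ↦ diag (t ^ x₁, …, t ^ x_n, 1, t ^ (-x_n), …, t ^ (-x₁))`;
these are its exponents. -/
def expo {n : ℕ} (x : Fin n → ℤ) (i : Fin (2 * n + 1)) : ℤ :=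
  if h : (i : ℕ) < n then x ⟨i, h⟩ else if h' : n < i then -x ⟨2 * n - i, by omega⟩ else 0

/-! ### The hypotheses on the Galois representation -/

/-- `r` is odd: for every complex conjugation `c`, the trace of `Ad (r c)` on the Lie algebra of
`SO_{2n+1}` over `k` is `rank(G) - 2 rank(K) = n - 2 n` (here `G = Sp_{2n}(ℝ)`, `K = U(n)`). -/
def IsOdd {n : ℕ} {k : Type} [Field k] (r : GQ →* SO n k) : Prop :=
  ∀ c : GQ, IsComplexConj c →
    LinearMap.trace k (LieSO n k) (Ad (r c)) = (((n : ℤ) - 2 * n : ℤ) : k)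

/-- `r` is nearly ordinary of type `x` at `p`: at every place above `p` the restriction of `r` to
the decomposition group is conjugate into the Borel subgroup of upper triangular matrices, in
such a way that on inertia the diagonal part is `x^∨ ∘ ω`. -/
def IsNearlyOrdinary (p : ℕ) [Fact p.Prime] {n : ℕ} {k : Type} [Field k] [CharP k p]
    (x : Fin n → ℤ) (r : GQ →* SO n k) : Prop :=
  ∀ A : ValuationSubring Qbar, Above p A → ∃ g : SO n k, ∀ σ ∈ decomp A,
    Matrix.BlockTriangular (g⁻¹ * r σ * g : SO n k).1.1 id ∧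
      (σ ∈ inertia A → ∀ i, (g⁻¹ * r σ * g : SO n k).1.1 i i = ((omega p k σ ^ (expo x i) : kˣ) : k))

/-- `r` is Steinberg at `l`: the image of inertia is the cyclic group generated by a principal
unipotent element (one with a single Jordan block). -/
def IsSteinbergAt (l : ℕ) {n : ℕ} {k : Type} [Field k] (r : GQ →* SO n k) : Prop :=
  ∀ A : ValuationSubring Qbar, Above l A → ∃ u : SO n k,
    (u.1.1 - 1) ^ (2 * n + 1) = 0 ∧ (u.1.1 - 1) ^ (2 * n) ≠ 0 ∧
    (inertia A).map r = Subgroup.zpowers u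

/-- `r` is unramified at `l`. -/
def IsUnramifiedAt (l : ℕ) {n : ℕ} {k : Type} [Field k] (r : GQ →* SO n k) : Prop :=
  ∀ A : ValuationSubring Qbar, Above l A → ∀ σ ∈ inertia A, r σ = 1

/-- All the hypotheses of the question, for `G = Sp_{2n}`, on the weight `x`, the finite set `S` of
primes and the representation `r` of the absolute Galois group of `ℚ`. -/
structure Hypotheses (p : ℕ) [Fact p.Prime] {n : ℕ} (k : Type) [Field k] [CharP k p]
    (x : Fin n → ℤ) (S : Finset ℕ) (r : GQ →* SO n k) : Prop where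
  regular : StronglyRegular x
  primes : ∀ l ∈ S, l.Prime ∧ l ≠ p
  continuous : IsOpen (r.ker : Set GQ)
  odd : IsOdd r
  ordinary : IsNearlyOrdinary p x r
  steinberg : ∀ l ∈ S, IsSteinbergAt l r
  unramified : ∀ l : ℕ, l.Prime → l ∉ S → l ≠ p → IsUnramifiedAt l r

/-! ### Proofs: vanishing of the cohomology -/

/-- `-1` as an element of `Sp_{2n}(R)`. -/
def negOne (n : ℕ) (R : Type) [CommRing R] : Sp n R :=
  ⟨-1, SymplecticGroup.neg_mem (one_mem _)⟩

lemma negOne_mem_borel (n : ℕ) (R : Type) [CommRing R] : negOne n R ∈ borel n R := by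
  refine ⟨fun i j => ?_, fun i j hij => ?_, fun i j hij => ?_⟩
  · change (-1 : Matrix (Fin n ⊕ Fin n) (Fin n ⊕ Fin n) R) (Sum.inr i) (Sum.inl j) = 0
    rw [Matrix.neg_apply, Matrix.one_apply_ne (by simp), neg_zero]
  · change (-1 : Matrix (Fin n ⊕ Fin n) (Fin n ⊕ Fin n) R) (Sum.inl i) (Sum.inl j) = 0
    rw [Matrix.neg_apply, Matrix.one_apply_ne (by simpa using hij.ne'), neg_zero]
  · change (-1 : Matrix (Fin n ⊕ Fin n) (Fin n ⊕ Fin n) R) (Sum.inr i) (Sum.inr j) = 0
    rw [Matrix.neg_apply, Matrix.one_apply_ne (by simpa using hij.ne), neg_zero]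

lemma negOne_comm (n : ℕ) (R : Type) [CommRing R] (g : Sp n R) :
    g * negOne n R = negOne n R * g := by
  apply Subtype.ext
  change g.1 * (-1) = (-1) * g.1
  simp

lemma map_negOne (n : ℕ) {R S : Type} [CommRing R] [CommRing S] (f : R →+* S) :
    spMap n f (negOne n R) = negOne n S := by
  apply Subtype.ext
  change f.mapMatrix (-1) = -1
  rw [map_neg, map_one]

lemma prod_neg_one_zpow {ι : Type} (s : Finset ι) (f : ι → ℤ) :
    ∏ i ∈ s, (-1 : ℚ) ^ f i = (-1) ^ (∑ i ∈ s, f i) := by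
  classical
  induction s using Finset.induction_on with
  | empty => simp
  | insert a s ha ih =>
    rw [Finset.prod_insert ha, Finset.sum_insert ha, ih, zpow_add₀ (by norm_num)]

/-- `-1` acts as `-1`. -/
lemma negOne_act {n : ℕ} {V : Type} [AddCommGroup V] [Module ℚ V]
    {π : Representation ℚ (Sp n ℚ) V} {wt : Fin n → ℤ} (h : IsIrreducibleOfHighestWeight π wt)
    (hwt : Odd (∑ i, wt i)) (v : V) : π (negOne n ℚ) v = -v := by
  obtain ⟨v₀, hv₀, hb⟩ := h.highest
  have h1 : π (negOne n ℚ) v₀ = -v₀ := by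
    rw [hb _ (negOne_mem_borel n ℚ)]
    have h2 : ∀ i, (negOne n ℚ).1 (Sum.inl i) (Sum.inl i) = -1 := by
      intro i
      change (-1 : Matrix (Fin n ⊕ Fin n) (Fin n ⊕ Fin n) ℚ) (Sum.inl i) (Sum.inl i) = -1
      simp
    simp_rw [h2]
    rw [prod_neg_one_zpow, hwt.neg_one_zpow, neg_one_smul]
  let W : Submodule ℚ V := LinearMap.ker (π (negOne n ℚ) + LinearMap.id)
  have hW : ∀ w, w ∈ W ↔ π (negOne n ℚ) w = -w := by
    intro w
    simp only [W, LinearMap.mem_ker, LinearMap.add_apply, LinearMap.id_apply]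
    exact add_eq_zero_iff_eq_neg
  have hst : ∀ g, ∀ w ∈ W, π g w ∈ W := by
    intro g w hw
    rw [hW] at hw ⊢
    rw [← Module.End.mul_apply, ← map_mul, ← negOne_comm, map_mul, Module.End.mul_apply, hw,
      map_neg]
  rcases h.irreducible W hst with h3 | h3
  · exact absurd ((Submodule.mem_bot ℚ).1 (h3 ▸ (hW v₀).2 h1)) hv₀
  · exact (hW v).1 (h3 ▸ Submodule.mem_top)

/-- In characteristic different from `2`, all the cohomology vanishes when the sum of the
coordinates of the highest weight is odd. -/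
lemma vanishing {n : ℕ} {V : Type} [AddCommGroup V] [Module ℚ V]
    {π : Representation ℚ (Sp n ℚ) V} {wt : Fin n → ℤ} (h : IsIrreducibleOfHighestWeight π wt)
    (hwt : Odd (∑ i, wt i)) {M : Submodule ℤ V} (hM : IsStableLattice π M) (N : ℕ) (k : Type)
    [Field k] (h2 : (2 : k) ≠ 0) (i : ℕ) : Subsingleton (H hM N k i) := by
  have hmem : negOne n ℤ ∈ Gamma0 n N := by
    change spMap n (Int.castRingHom (ZMod N)) (negOne n ℤ) ∈ borel n (ZMod N)
    rw [map_negOne]
    exact negOne_mem_borel n _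
  refine H320R3.CenterKills.subsingleton_groupCohomology _ (⟨negOne n ℤ, hmem⟩ : Gamma0 n N)
    (fun g => Subtype.ext (negOne_comm n ℤ g)) ?_ (isUnit_iff_ne_zero.2 h2) i
  intro a
  have h1 : latticeRep hM N ⟨negOne n ℤ, hmem⟩ = -LinearMap.id := by
    ext m
    change π (spMap n (Int.castRingHom ℚ) (negOne n ℤ)) m.1 = _
    rw [map_negOne, negOne_act h hwt]
    simp
  change (latticeRep hM N ⟨negOne n ℤ, hmem⟩).baseChange k a = -a
  rw [h1]
  simp

section Cyclotomic

variable (p : ℕ) [Fact p.Prime] (k : Type) [Field k] [CharP k p]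

lemma omega_spec (σ : GQ) : ∃ n : ℕ, (∀ t : Qbar, t ^ p = 1 → σ t = t ^ n) ∧
    ((omega p k σ : kˣ) : k) = (n : k) := by
  have hne : ∀ i : ℕ, NeZero ((p ^ i : ℕ) : Qbar) := fun i =>
    ⟨by exact_mod_cast pow_ne_zero i (Fact.out : p.Prime).ne_zero⟩
  have hinst : ∀ i, HasEnoughRootsOfUnity Qbar (p ^ i) := fun i => inferInstance
  set a : ℤ_[p] := ((cyclotomicCharacter Qbar p) (σ : Qbar ≃+* Qbar)).val with ha
  refine ⟨(PadicInt.toZModPow 1 a).val, ?_, ?_⟩
  · intro t ht
    have := cyclotomicCharacter.spec p (n := 1) (σ : Qbar ≃+* Qbar) t (by rw [pow_one]; exact ht)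
    exact this
  · have h1 : a - (((PadicInt.toZModPow 1 a).val : ℕ) : ℤ_[p]) ∈
        RingHom.ker (PadicInt.toZModPow (p := p) 1) := by
      rw [RingHom.mem_ker, map_sub, map_natCast, ZMod.natCast_val, ZMod.cast_id, sub_self]
    rw [PadicInt.ker_toZModPow, Ideal.mem_span_singleton, pow_one] at h1
    obtain ⟨c, hc⟩ := h1
    have h2 : PadicInt.toZMod a = (((PadicInt.toZModPow 1 a).val : ℕ) : ZMod p) := by
      have h3 : a = (((PadicInt.toZModPow 1 a).val : ℕ) : ℤ_[p]) + p * c := by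
        rw [← hc]; ring
      conv_lhs => rw [h3]
      rw [map_add, map_mul, map_natCast, map_natCast]
      simp
    change (ZMod.castHom (dvd_refl p) k) (PadicInt.toZMod a) = _
    rw [h2, map_natCast]

omit [Fact p.Prime] in
variable {p} in
lemma cast_one_of_dvd (hp : 1 ≤ p) {n : ℕ} (h : p ∣ n + (p - 1)) : (n : k) = 1 := by
  have h1 : ((n + (p - 1) : ℕ) : k) = 0 := (CharP.cast_eq_zero_iff k p _).2 h
  rw [Nat.cast_add, Nat.cast_sub hp, CharP.cast_eq_zero k p] at h1
  push_cast at h1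
  linear_combination h1

lemma exists_zeta : ∃ z : Qbar, IsPrimitiveRoot z p := by
  have : NeZero ((p : ℕ) : Qbar) := ⟨by exact_mod_cast (Fact.out : p.Prime).ne_zero⟩
  exact HasEnoughRootsOfUnity.exists_primitiveRoot Qbar p

variable {p}

/-- complex conjugation acts by `-1` -/
lemma omega_conj {c : GQ} (hc : IsComplexConj c) : omega p k c = -1 := by
  obtain ⟨ι, hι⟩ := hc
  obtain ⟨n, h1, h2⟩ := omega_spec p k c
  obtain ⟨z, hz⟩ := exists_zeta p
  have h3 := h1 z hz.pow_eq_one
  have h4 := hι z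
  rw [h3, map_pow] at h4
  have hnorm : ‖ι z‖ = 1 := by
    have h5 : (ι z) ^ p = 1 := by rw [← map_pow, hz.pow_eq_one, map_one]
    exact Complex.norm_eq_one_of_pow_eq_one h5 (Fact.out : p.Prime).ne_zero
  have h6 : (starRingEnd ℂ) (ι z) * ι z = 1 := by
    rw [← Complex.normSq_eq_conj_mul_self, Complex.normSq_eq_norm_sq, hnorm]
    norm_num
  have h7 : ι (z ^ (n + 1)) = 1 := by
    rw [map_pow, pow_succ, h4, h6]
  have h8 : z ^ (n + 1) = 1 := ι.injective (by rw [h7, map_one])
  have h9 : p ∣ n + 1 := (hz.pow_eq_one_iff_dvd _).1 h8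
  have h10 : ((n + 1 : ℕ) : k) = 0 := (CharP.cast_eq_zero_iff k p _).2 h9
  apply Units.ext
  rw [h2, Units.val_neg, Units.val_one]
  push_cast at h10
  linear_combination h10

/-- elements fixing the `p`-th roots of unity are in the kernel -/
lemma omega_of_fix {σ : GQ} {z : Qbar} (hz : IsPrimitiveRoot z p) (h : σ z = z) :
    omega p k σ = 1 := by
  obtain ⟨n, h1, h2⟩ := omega_spec p k σ
  have h3 := h1 z hz.pow_eq_one
  rw [h] at h3
  have hp : p.Prime := Fact.out
  have h4 : z ^ (n + (p - 1)) = 1 := by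
    rw [pow_add, ← h3, ← pow_succ', Nat.sub_add_cancel hp.one_le, hz.pow_eq_one]
  have h5 : p ∣ n + (p - 1) := (hz.pow_eq_one_iff_dvd _).1 h4
  apply Units.ext
  rw [h2, Units.val_one]
  exact cast_one_of_dvd k hp.one_le h5

lemma isOpen_omega : IsOpen ((omega p k).ker : Set GQ) := by
  obtain ⟨z, hz⟩ := exists_zeta p
  have hint : IsIntegral ℚ z := (hz.isIntegral (Fact.out : p.Prime).pos).tower_top
  have : FiniteDimensional ℚ (IntermediateField.adjoin ℚ {z}) :=
    IntermediateField.adjoin.finiteDimensional hint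
  have h1 := IntermediateField.fixingSubgroup_isOpen (IntermediateField.adjoin ℚ {z})
  refine Subgroup.isOpen_mono (H₁ := (IntermediateField.adjoin ℚ {z}).fixingSubgroup) ?_ h1
  intro σ hσ
  rw [MonoidHom.mem_ker]
  refine omega_of_fix k hz ?_
  rw [IntermediateField.mem_fixingSubgroup_iff] at hσ
  exact hσ z (IntermediateField.mem_adjoin_simple_self ℚ z)

/-- `ω` is unramified outside `p` -/
lemma omega_unramified {l : ℕ} (hl : l.Prime) (hlp : l ≠ p) {A : ValuationSubring Qbar}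
    (hA : Above l A) {σ : GQ} (hσ : σ ∈ inertia A) : omega p k σ = 1 := by
  obtain ⟨τ, hτ, rfl⟩ := hσ
  obtain ⟨n, h1, h2⟩ := omega_spec p k ((A.decompositionSubgroup ℚ).subtype τ)
  obtain ⟨z, hz⟩ := exists_zeta p
  have hp : p.Prime := Fact.out
  have hzA : z ∈ A := by
    rcases A.mem_or_inv_mem z with h | h
    · exact h
    · have h3 : z = (z⁻¹) ^ (p - 1) := by
        have h4 : z ^ (p - 1) * z = 1 := by
          rw [← pow_succ, Nat.sub_add_cancel hp.one_le, hz.pow_eq_one]
        rw [inv_pow]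
        exact eq_inv_of_mul_eq_one_right h4
      rw [h3]
      exact pow_mem h _
  let zA : A := ⟨z, hzA⟩
  set r : IsLocalRing.ResidueField A := IsLocalRing.residue A zA with hr
  have h3 : IsLocalRing.residue A (τ • zA) = r := by
    have h4 : MulSemiringAction.toRingAut (A.decompositionSubgroup ℚ)
        (IsLocalRing.ResidueField A) τ = 1 := hτ
    have h5 := congrArg (fun f => f r) h4
    change τ • r = r at h5
    rw [hr, ← IsLocalRing.ResidueField.residue_smul] at h5
    exact h5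
  have h4 : τ • zA = zA ^ n := by
    apply Subtype.ext
    have := h1 z hz.pow_eq_one
    exact this
  rw [h4, map_pow] at h3
  have h5 : r ^ p = 1 := by
    rw [hr, ← map_pow]
    have : zA ^ p = 1 := Subtype.ext hz.pow_eq_one
    rw [this, map_one]
  have h6 : orderOf r = 1 ∨ orderOf r = p := (Nat.dvd_prime hp).1 (orderOf_dvd_of_pow_eq_one h5)
  have hlr : ((l : ℕ) : IsLocalRing.ResidueField A) = 0 := by
    have h7 : ((l : ℕ) : A) ∈ IsLocalRing.maximalIdeal A := by
      rw [← ValuationSubring.coe_mem_nonunits_iff]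
      exact_mod_cast hA
    have h8 := (IsLocalRing.residue_eq_zero_iff _).2 h7
    rwa [map_natCast] at h8
  rcases h6 with h6 | h6
  · exfalso
    rw [orderOf_eq_one_iff] at h6
    have h7 : ∑ i ∈ Finset.range p, zA ^ i = 0 := by
      apply Subtype.ext
      have := hz.geom_sum_eq_zero hp.one_lt
      push_cast
      exact this
    have h8 := congrArg (IsLocalRing.residue A) h7
    rw [map_sum, map_zero] at h8
    simp only [map_pow] at h8
    rw [← hr, h6] at h8
    simp only [one_pow, Finset.sum_const, Finset.card_range, nsmul_eq_mul, mul_one] at h8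
    have h9 : IsCoprime (l : ℤ) (p : ℤ) := Nat.isCoprime_iff_coprime.2 ((Nat.coprime_primes hl hp).2 hlp)
    obtain ⟨a, b, hab⟩ := h9
    have h10 := congrArg (fun x : ℤ => (x : IsLocalRing.ResidueField A)) hab
    push_cast at h10
    rw [hlr, h8] at h10
    simp at h10
  · have h7 : r ^ (n + (p - 1)) = 1 := by
      rw [pow_add, h3, ← pow_succ', Nat.sub_add_cancel hp.one_le, h5]
    have h8 := orderOf_dvd_of_pow_eq_one h7
    rw [h6] at h8
    apply Units.ext
    rw [h2, Units.val_one]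
    exact cast_one_of_dvd k hp.one_le h8

end Cyclotomic

/-! ### The trace of `Ad` of a diagonal matrix -/

/-- `X ↦ S Xᵀ S` -/
def tau (n : ℕ) (k : Type) [Field k] : Matrix (Fin (2 * n + 1)) (Fin (2 * n + 1)) k →ₗ[k]
    Matrix (Fin (2 * n + 1)) (Fin (2 * n + 1)) k where
  toFun X := (X.submatrix Fin.rev Fin.rev)ᵀ
  map_add' _ _ := rfl
  map_smul' _ _ := rfl

lemma tau_apply {n : ℕ} {k : Type} [Field k] (X : Matrix (Fin (2 * n + 1)) (Fin (2 * n + 1)) k)
    (i j : Fin (2 * n + 1)) : tau n k X i j = X j.rev i.rev := rfl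

lemma mem_LieSO {n : ℕ} {k : Type} [Field k]
    (X : Matrix (Fin (2 * n + 1)) (Fin (2 * n + 1)) k) : X ∈ LieSO n k ↔ tau n k X = -X := by
  have h1 : ∀ i j, (Xᵀ * formS n k + formS n k * X) i j = X j.rev i + X i.rev j := by
    intro i j
    rw [Matrix.add_apply, Matrix.mul_apply, Matrix.mul_apply]
    congr 1
    · rw [Finset.sum_eq_single j.rev]
      · simp [formS]
      · intro b _ hb
        have : j ≠ b.rev := fun h => hb (by rw [h, Fin.rev_rev])
        simp [formS, this]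
      · simp
    · rw [Finset.sum_eq_single i.rev]
      · simp [formS]
      · intro b _ hb
        simp [formS, hb]
      · simp
  have h2 : X ∈ LieSO n k ↔ Xᵀ * formS n k + formS n k * X = 0 := Iff.rfl
  rw [h2]
  constructor
  · intro h
    ext i j
    have h3 := h1 i.rev j
    rw [h, Matrix.zero_apply, Fin.rev_rev] at h3
    rw [tau_apply, Matrix.neg_apply]
    linear_combination -h3
  · intro h
    ext i j
    have h3 := congrFun (congrFun h i.rev) j
    rw [tau_apply, Matrix.neg_apply, Fin.rev_rev] at h3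
    rw [h1, h3, Matrix.zero_apply, neg_add_cancel]

lemma trace_restrict {k V : Type} [Field k] [AddCommGroup V] [Module k V] [FiniteDimensional k V]
    (T P : V →ₗ[k] V) (W : Submodule k V) (hT : ∀ w ∈ W, T w ∈ W) (hP : LinearMap.IsProj W P) :
    LinearMap.trace k W (T.restrict hT) = LinearMap.trace k V (T.comp P) := by
  let Q : V →ₗ[k] W := P.codRestrict W hP.map_mem
  have h1 : T.restrict hT = Q.comp (T.comp W.subtype) := by
    ext w
    change T w = P (T w)
    rw [hP.map_id _ (hT _ w.2)]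
  have h2 : W.subtype.comp Q = P := by
    ext v
    rfl
  rw [h1, LinearMap.trace_comp_comm', LinearMap.comp_assoc, h2]

/-- The diagonal matrices. -/
noncomputable def diagHom (n : ℕ) (k : Type) [Field k] : (Fin n → kˣ) →* GL (Fin n) k :=
  (Units.map (Matrix.diagonalRingHom (Fin n) k).toMonoidHom).comp
    (MulEquiv.piUnits (M := fun _ : Fin n => k)).symm.toMonoidHom

lemma diagHom_coe {n : ℕ} (k : Type) [Field k] (u : Fin n → kˣ) :
    (diagHom n k u : Matrix (Fin n) (Fin n) k) = Matrix.diagonal fun i => ((u i : kˣ) : k) := rfl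

lemma conjMat_diag {n : ℕ} (k : Type) [Field k] (u : Fin n → kˣ) (X : Matrix (Fin n) (Fin n) k)
    (i j : Fin n) : conjMat (diagHom n k u) X i j = (u i : k) * X i j * (((u j)⁻¹ : kˣ) : k) := by
  unfold conjMat
  rw [LinearMap.comp_apply, LinearMap.mulLeft_apply, LinearMap.mulRight_apply, ← map_inv,
    diagHom_coe, diagHom_coe, Matrix.diagonal_mul, Matrix.mul_diagonal, mul_assoc]
  rfl

lemma trace_eq_sum {m : ℕ} {k : Type} [Field k]
    (T : Matrix (Fin m) (Fin m) k →ₗ[k] Matrix (Fin m) (Fin m) k) :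
    LinearMap.trace k _ T = ∑ i, ∑ j, T (Matrix.single i j 1) i j := by
  rw [LinearMap.trace_eq_matrix_trace k (Matrix.stdBasis k (Fin m) (Fin m)), Matrix.trace,
    Fintype.sum_prod_type]
  refine Finset.sum_congr rfl fun i _ => Finset.sum_congr rfl fun j _ => ?_
  rw [Matrix.diag_apply, LinearMap.toMatrix_apply, Matrix.stdBasis_eq_single]
  rfl

lemma trace_Ad_diag {n : ℕ} (k : Type) [Field k] (h2 : (2 : k) ≠ 0) (g : SO n k)
    (u : Fin (2 * n + 1) → kˣ) (hg : g.1 = diagHom (2 * n + 1) k u) :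
    2 * LinearMap.trace k (LieSO n k) (Ad g) =
      (∑ i, (u i : k)) * (∑ i, (((u i)⁻¹ : kˣ) : k)) -
        ∑ i, (u i : k) * (((u i.rev)⁻¹ : kˣ) : k) := by
  have hP : LinearMap.IsProj (LieSO n k) ((2⁻¹ : k) • (LinearMap.id - tau n k)) := by
    constructor
    · intro X
      rw [mem_LieSO]
      ext i j
      simp only [LinearMap.smul_apply, LinearMap.sub_apply, LinearMap.id_apply, tau_apply,
        Matrix.smul_apply, Matrix.sub_apply, Matrix.neg_apply, Fin.rev_rev, smul_eq_mul]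
      ring
    · intro X hX
      rw [mem_LieSO] at hX
      simp only [LinearMap.smul_apply, LinearMap.sub_apply, LinearMap.id_apply, hX]
      rw [sub_neg_eq_add, ← two_smul k X, smul_smul, inv_mul_cancel₀ h2, one_smul]
  unfold Ad
  rw [trace_restrict _ _ _ (conjMat_mem g) hP, trace_eq_sum, hg, Finset.sum_mul_sum,
    Finset.mul_sum, ← Finset.sum_sub_distrib]
  refine Finset.sum_congr rfl fun i _ => ?_
  rw [Finset.mul_sum]
  have h3 : (u i : k) * (((u i.rev)⁻¹ : kˣ) : k) =
      ∑ j, if j = i.rev then (u i : k) * (((u j)⁻¹ : kˣ) : k) else 0 := by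
    rw [Finset.sum_ite_eq' Finset.univ i.rev]
    simp
  rw [h3, ← Finset.sum_sub_distrib]
  refine Finset.sum_congr rfl fun j _ => ?_
  rw [LinearMap.comp_apply, conjMat_diag]
  simp only [LinearMap.smul_apply, LinearMap.sub_apply, LinearMap.id_apply, tau_apply,
    Matrix.smul_apply, Matrix.sub_apply, smul_eq_mul]
  rw [Matrix.single_apply, Matrix.single_apply]
  by_cases h : j = i.rev
  · have h4 : i = j.rev := by rw [h, Fin.rev_rev]
    rw [if_pos ⟨rfl, rfl⟩, if_pos ⟨h4, h⟩, if_pos h]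
    ring
  · rw [if_pos ⟨rfl, rfl⟩, if_neg (fun h' => h h'.2), if_neg h]
    have : (2 : k) * 2⁻¹ = 1 := mul_inv_cancel₀ h2
    linear_combination ((u i : k) * (((u j)⁻¹ : kˣ) : k)) * this

/-! ### The homomorphism `x^∨ ∘ ω` -/

lemma expo_rev {n : ℕ} (x : Fin n → ℤ) (i : Fin (2 * n + 1)) : expo x i.rev = -expo x i := by
  have hr : (i.rev : ℕ) = 2 * n - i := by rw [Fin.val_rev]; omega
  have hi := i.2
  unfold expo
  by_cases h1 : (i : ℕ) < n
  · rw [dif_pos h1, dif_neg (by omega), dif_pos (by omega)]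
    congr 2
    apply Fin.ext
    simp only [hr]
    omega
  · by_cases h2 : n < (i : ℕ)
    · rw [dif_neg h1, dif_pos h2, dif_pos (by omega), neg_neg]
      congr 1
      apply Fin.ext
      simp only [hr]
    · rw [dif_neg h1, dif_neg h2, dif_neg (by omega), dif_neg (by omega), neg_zero]

lemma sum_expo {n : ℕ} (x : Fin n → ℤ) : ∑ i, expo x i = 0 := by
  have h1 : ∑ i : Fin (2 * n + 1), expo x i = ∑ i : Fin (2 * n + 1), expo x i.rev :=
    (Equiv.sum_comp Fin.revPerm (fun i => expo x i)).symm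
  simp_rw [expo_rev] at h1
  rw [Finset.sum_neg_distrib] at h1
  linarith

lemma prod_zpow_unit {ι : Type} {k : Type} [Field k] (s : Finset ι) (t : kˣ) (f : ι → ℤ) :
    ∏ i ∈ s, t ^ f i = t ^ (∑ i ∈ s, f i) := by
  classical
  induction s using Finset.induction_on with
  | empty => simp
  | insert a s ha ih =>
    rw [Finset.prod_insert ha, Finset.sum_insert ha, ih, _root_.zpow_add]

/-- The cocharacter `x^∨`, with values in `SO_{2n+1}(k)`. -/
noncomputable def coch {n : ℕ} (k : Type) [Field k] (x : Fin n → ℤ) : kˣ →* SO n k where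
  toFun t := ⟨diagHom (2 * n + 1) k fun i => t ^ expo x i, by
    refine ⟨?_, ?_⟩
    · change (diagHom (2 * n + 1) k fun i => t ^ expo x i).1ᵀ * formS n k *
        (diagHom (2 * n + 1) k fun i => t ^ expo x i).1 = formS n k
      rw [diagHom_coe, Matrix.diagonal_transpose]
      ext i j
      rw [Matrix.mul_diagonal, Matrix.diagonal_mul]
      by_cases h : j = i.rev
      · rw [h, expo_rev, mul_right_comm, ← Units.val_mul, ← _root_.zpow_add, add_neg_cancel,
          _root_.zpow_zero, Units.val_one, one_mul]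
      · simp [formS, h]
    · change (diagHom (2 * n + 1) k fun i => t ^ expo x i).1.det = 1
      rw [diagHom_coe, Matrix.det_diagonal, ← Units.coe_prod, prod_zpow_unit,
        sum_expo, _root_.zpow_zero, Units.val_one]⟩
  map_one' := by
    apply Subtype.ext
    change (diagHom (2 * n + 1) k fun i => (1 : kˣ) ^ expo x i) = 1
    have : (fun i : Fin (2 * n + 1) => (1 : kˣ) ^ (expo x i)) = 1 := by
      funext i
      rw [_root_.one_zpow]
      rfl
    rw [this, map_one]
  map_mul' s t := by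
    apply Subtype.ext
    change (diagHom (2 * n + 1) k fun i => (s * t : kˣ) ^ expo x i) =
      (diagHom (2 * n + 1) k fun i => (s : kˣ) ^ expo x i) *
        (diagHom (2 * n + 1) k fun i => (t : kˣ) ^ expo x i)
    rw [← map_mul]
    congr 1
    funext i
    exact _root_.mul_zpow _ _ _

/-- The number of odd entries of `x`. -/
def numOdd {n : ℕ} (x : Fin n → ℤ) : ℕ := (Finset.univ.filter fun i => Odd (x i)).card

/-- The homomorphism `x^∨ ∘ ω`, i.e.
`σ ↦ diag (ω(σ) ^ x₁, …, ω(σ) ^ x_n, 1, ω(σ) ^ (-x_n), …, ω(σ) ^ (-x₁))`. -/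
noncomputable def rbar (p : ℕ) [Fact p.Prime] {n : ℕ} (k : Type) [Field k] [CharP k p]
    (x : Fin n → ℤ) : GQ →* SO n k := (coch k x).comp (omega p k)

lemma rbar_of_omega {p : ℕ} [Fact p.Prime] {n : ℕ} {k : Type} [Field k] [CharP k p]
    (x : Fin n → ℤ) {σ : GQ} (h : omega p k σ = 1) : rbar p k x σ = 1 := by
  rw [rbar, MonoidHom.comp_apply, h, map_one]

lemma sum_sign {n : ℕ} (k : Type) [Field k] (x : Fin n → ℤ) :
    ∑ i, (((-1 : kˣ) ^ (x i) : kˣ) : k) = ((n : ℤ) - 2 * numOdd x : ℤ) := by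
  have h1 : ∀ i, (((-1 : kˣ) ^ (x i) : kˣ) : k) = 1 - if Odd (x i) then 2 else 0 := by
    intro i
    rcases Int.even_or_odd (x i) with h | h
    · rw [h.neg_one_zpow, if_neg (by rw [Int.not_odd_iff_even]; exact h)]
      simp
    · rw [h.neg_one_zpow, if_pos h]
      push_cast
      ring
  simp_rw [h1]
  rw [Finset.sum_sub_distrib, ← Finset.sum_filter]
  simp only [Finset.sum_const, Finset.card_univ, Fintype.card_fin, nsmul_eq_mul, mul_one, numOdd]
  push_cast
  ring

/-- sums over `Fin (2 n + 1)` of symmetric functions -/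
lemma sum_symm {n : ℕ} {k : Type} [Field k] (f : Fin (2 * n + 1) → k) (g : Fin n → k)
    (h1 : ∀ (i : Fin n), f ⟨i, by omega⟩ = g i) (h2 : ∀ i, f i.rev = f i) :
    ∑ i, f i = 2 * ∑ i, g i + f ⟨n, by omega⟩ := by
  let F : ℕ → k := fun i => if h : i < 2 * n + 1 then f ⟨i, h⟩ else 0
  have hF : ∑ i, f i = ∑ i ∈ Finset.range (2 * n + 1), F i := by
    rw [← Fin.sum_univ_eq_sum_range]
    refine Finset.sum_congr rfl fun i _ => ?_
    simp only [F]
    rw [dif_pos i.2]
  have hg : ∑ i, g i = ∑ i ∈ Finset.range n, F i := by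
    rw [← Fin.sum_univ_eq_sum_range]
    refine Finset.sum_congr rfl fun i _ => ?_
    simp only [F]
    rw [dif_pos (by omega), ← h1]
  have hr : ∑ i ∈ Finset.range n, F (n + 1 + i) = ∑ i ∈ Finset.range n, F i := by
    rw [← Finset.sum_range_reflect (fun i => F i) n]
    refine Finset.sum_congr rfl fun i hi => ?_
    rw [Finset.mem_range] at hi
    simp only [F]
    rw [dif_pos (by omega), dif_pos (by omega), ← h2]
    congr 1
    apply Fin.ext
    rw [Fin.val_rev]
    simp only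
    omega
  have h3 : Finset.range (2 * n + 1) = Finset.range (n + 1 + n) := by
    congr 1
    omega
  rw [hF, h3, Finset.sum_range_add, Finset.sum_range_succ, hr, hg]
  have h4 : F n = f ⟨n, by omega⟩ := by
    simp only [F]
    rw [dif_pos (by omega)]
  rw [h4]
  ring

lemma sum_expo_sign {n : ℕ} (k : Type) [Field k] (x : Fin n → ℤ) :
    ∑ i, (((-1 : kˣ) ^ (expo x i) : kˣ) : k) = ((2 * n + 1 - 4 * numOdd x : ℤ) : k) := by
  have hneg : ∀ m : ℤ, (-1 : kˣ) ^ (-m) = (-1 : kˣ) ^ m := by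
    intro m
    rw [_root_.zpow_neg, ← _root_.inv_zpow, inv_neg_one]
  rw [sum_symm (fun i => (((-1 : kˣ) ^ (expo x i) : kˣ) : k))
    (fun i => (((-1 : kˣ) ^ (x i) : kˣ) : k)) ?_ ?_, sum_sign]
  · have h1 : expo x ⟨n, by omega⟩ = 0 := by
      unfold expo
      rw [dif_neg (by simp), dif_neg (by simp)]
    simp only [h1, _root_.zpow_zero, Units.val_one]
    push_cast
    ring
  · intro i
    have h1 : expo x ⟨i, by omega⟩ = x i := by
      unfold expo
      rw [dif_pos (by simp)]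
    simp only [h1]
  · intro i
    simp only [expo_rev, hneg]

lemma two_trace (p : ℕ) [Fact p.Prime] {n : ℕ} (k : Type) [Field k] [CharP k p]
    (h2 : (2 : k) ≠ 0) (x : Fin n → ℤ) {c : GQ} (hc : IsComplexConj c) :
    2 * LinearMap.trace k (LieSO n k) (Ad (rbar p k x c)) =
      (((2 * n + 1 - 4 * numOdd x : ℤ) ^ 2 - (2 * n + 1) : ℤ) : k) := by
  have hneg : ∀ m : ℤ, (-1 : kˣ) ^ (-m) = (-1 : kˣ) ^ m := by
    intro m
    rw [_root_.zpow_neg, ← _root_.inv_zpow, inv_neg_one]
  have hinv : ∀ m : ℤ, ((-1 : kˣ) ^ m)⁻¹ = (-1 : kˣ) ^ m := by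
    intro m
    rw [← _root_.zpow_neg, hneg]
  have hg : (rbar p k x c).1 = diagHom (2 * n + 1) k fun i => (-1 : kˣ) ^ expo x i := by
    rw [rbar, MonoidHom.comp_apply, omega_conj k hc]
    rfl
  rw [trace_Ad_diag k h2 _ _ hg]
  have h3 : ∀ i : Fin (2 * n + 1), (((-1 : kˣ) ^ expo x i : kˣ) : k) *
      ((((-1 : kˣ) ^ expo x i.rev)⁻¹ : kˣ) : k) = 1 := by
    intro i
    rw [hinv, expo_rev, ← Units.val_mul, ← _root_.zpow_add, add_neg_cancel, _root_.zpow_zero,
      Units.val_one]
  simp_rw [h3, hinv]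
  rw [sum_expo_sign]
  simp only [Finset.sum_const, Finset.card_univ, Fintype.card_fin, nsmul_eq_mul, mul_one]
  push_cast
  ring

lemma exists_conj : ∃ c : GQ, IsComplexConj c := by
  have hq : Algebra.IsAlgebraic ℚ (AlgebraicClosure ℚ) := AlgebraicClosure.isAlgebraic ℚ
  have hn : Normal ℚ (AlgebraicClosure ℚ) :=
    { toIsAlgebraic := hq
      splits' := fun x => IsAlgClosed.splits _ }
  let ι : (AlgebraicClosure ℚ) →ₐ[ℚ] ℂ := IsAlgClosed.lift
  let _ : Algebra (AlgebraicClosure ℚ) ℂ := ι.toRingHom.toAlgebra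
  have : IsScalarTower ℚ (AlgebraicClosure ℚ) ℂ :=
    IsScalarTower.of_algebraMap_eq fun q => (ι.commutes q).symm
  refine ⟨(Complex.conjAe.restrictScalars ℚ).restrictNormal (AlgebraicClosure ℚ),
    ι.toRingHom, fun z => ?_⟩
  exact AlgEquiv.restrictNormal_commutes (Complex.conjAe.restrictScalars ℚ)
    (AlgebraicClosure ℚ) z


lemma sum_rho_two {n : ℕ} : 2 * ∑ i, rho n i = (n : ℤ) * (n + 1) := by
  have h3 : ∑ i : Fin n, rho n i = ∑ i ∈ Finset.range n, ((n : ℤ) - i) := by
    rw [← Fin.sum_univ_eq_sum_range (fun i => (n : ℤ) - i)]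
    rfl
  rcases Nat.eq_zero_or_pos n with rfl | hn
  · simp
  have h4 : ((∑ i ∈ Finset.range n, i : ℕ) : ℤ) * 2 = (n : ℤ) * (n - 1) := by
    have := Finset.sum_range_id_mul_two n
    have h5 : ((n - 1 : ℕ) : ℤ) = (n : ℤ) - 1 := by omega
    rw [← h5]
    exact_mod_cast this
  rw [h3, Finset.sum_sub_distrib]
  simp only [Finset.sum_const, Finset.card_range, nsmul_eq_mul]
  push_cast at h4
  linarith

lemma sum_parity {n : ℕ} (x : Fin n → ℤ) : (2 : ℤ) ∣ ∑ i, x i - numOdd x := by
  have h1 : (numOdd x : ℤ) = ∑ i, if Odd (x i) then (1 : ℤ) else 0 := by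
    rw [← Finset.sum_filter]
    simp [numOdd]
  rw [h1, ← Finset.sum_sub_distrib]
  refine Finset.dvd_sum fun i _ => ?_
  split_ifs with h
  · obtain ⟨t, ht⟩ := h
    exact ⟨t, by rw [ht]; ring⟩
  · rw [Int.not_odd_iff_even] at h
    obtain ⟨t, ht⟩ := h
    exact ⟨t, by rw [ht]; ring⟩

lemma odd_iff {n : ℕ} (x : Fin n → ℤ) :
    Odd (∑ i, (x i - rho n i)) ↔ Odd ((n + 1) / 2 + numOdd x) := by
  have h1 := sum_rho_two (n := n)
  obtain ⟨t, ht⟩ := sum_parity x
  obtain ⟨s, hs⟩ : ∃ s : ℤ, ∑ i, rho n i = (((n + 1) / 2 : ℕ) : ℤ) + 2 * s := by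
    rcases Nat.even_or_odd' n with ⟨m, hm | hm⟩
    · refine ⟨(m : ℤ) * m, ?_⟩
      have h2 : (n + 1) / 2 = m := by omega
      rw [h2]
      rw [hm] at h1 ⊢
      push_cast at h1
      linarith
    · refine ⟨(m : ℤ) * (m + 1), ?_⟩
      have h2 : (n + 1) / 2 = m + 1 := by omega
      rw [h2]
      rw [hm] at h1 ⊢
      push_cast at h1 ⊢
      linarith
  rw [Finset.sum_sub_distrib, hs, show ∑ i, x i = numOdd x + 2 * t by linarith]
  rw [← Int.odd_coe_nat, Nat.cast_add]
  constructor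
  · rintro ⟨w, hw⟩
    exact ⟨w + 2 * s + ((((n + 1) / 2 : ℕ) : ℤ)) - t - s, by linarith⟩
  · rintro ⟨w, hw⟩
    exact ⟨w + t - s - ((((n + 1) / 2 : ℕ) : ℤ)), by linarith⟩

lemma two_ne_zero' {p : ℕ} [Fact p.Prime] (hp : p ≠ 2) (k : Type) [Field k] [CharP k p] :
    (2 : k) ≠ 0 := by
  intro h
  have h1 : ((2 : ℕ) : k) = 0 := by exact_mod_cast h
  rw [CharP.cast_eq_zero_iff k p] at h1
  have := Nat.le_of_dvd (by norm_num) h1
  have := (Fact.out : p.Prime).two_le
  omega

lemma isOdd_iff (p : ℕ) [Fact p.Prime] (hp : p ≠ 2) {n : ℕ} (k : Type) [Field k]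
    [CharP k p] (x : Fin n → ℤ) :
    IsOdd (rbar p k x) ↔ (p : ℤ) ∣ ((n : ℤ) - 2 * numOdd x) * (n + 1 - 2 * numOdd x) := by
  have h2 := two_ne_zero' hp k
  have hpp : p.Prime := Fact.out
  have hcop : IsCoprime (p : ℤ) 4 := by
    have h3 : Nat.Coprime p 2 := (Nat.coprime_primes hpp Nat.prime_two).2 hp
    have h4 : Nat.Coprime p (2 * 2) := Nat.Coprime.mul_right h3 h3
    have h5 : IsCoprime (p : ℤ) ((2 * 2 : ℕ) : ℤ) := Nat.isCoprime_iff_coprime.2 h4
    exact_mod_cast h5
  have hE : ∀ {c : GQ} (_ : IsComplexConj c),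
      LinearMap.trace k (LieSO n k) (Ad (rbar p k x c)) = (((n : ℤ) - 2 * n : ℤ) : k) ↔
      (p : ℤ) ∣ ((n : ℤ) - 2 * numOdd x) * (n + 1 - 2 * numOdd x) := by
    intro c hc
    have h3 := two_trace p k h2 x hc
    have h4 : LinearMap.trace k (LieSO n k) (Ad (rbar p k x c)) = (((n : ℤ) - 2 * n : ℤ) : k) ↔
        2 * LinearMap.trace k (LieSO n k) (Ad (rbar p k x c)) =
          2 * (((n : ℤ) - 2 * n : ℤ) : k) := by
      constructor
      · intro h
        rw [h]
      · intro h
        exact mul_left_cancel₀ h2 h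
    rw [h4, h3, ← sub_eq_zero]
    have h5 : ((((2 * n + 1 - 4 * numOdd x : ℤ)) ^ 2 - (2 * n + 1) : ℤ) : k) -
        2 * (((n : ℤ) - 2 * n : ℤ) : k) =
        ((4 * (((n : ℤ) - 2 * numOdd x) * (n + 1 - 2 * numOdd x)) : ℤ) : k) := by
      push_cast
      ring
    rw [h5, CharP.intCast_eq_zero_iff k p]
    exact ⟨fun h => hcop.dvd_of_dvd_mul_left h, fun h => Dvd.dvd.mul_left h 4⟩
  constructor
  · intro h
    obtain ⟨c, hc⟩ := exists_conj
    exact (hE hc).1 (h c hc)
  · intro h c hc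
    exact (hE hc).2 h

lemma hyp_iff (p : ℕ) [Fact p.Prime] (hp : p ≠ 2) {n : ℕ} (k : Type) [Field k]
    [CharP k p] (x : Fin n → ℤ) :
    Hypotheses p k x ∅ (rbar p k x) ↔
      StronglyRegular x ∧ (p : ℤ) ∣ ((n : ℤ) - 2 * numOdd x) * (n + 1 - 2 * numOdd x) := by
  rw [← isOdd_iff p hp k x]
  constructor
  · intro h
    exact ⟨h.regular, h.odd⟩
  rintro ⟨hreg, hodd⟩
  refine ⟨hreg, by simp, ?_, hodd, ?_, by simp, ?_⟩
  · refine Subgroup.isOpen_mono (H₁ := (omega p k).ker) ?_ (isOpen_omega k)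
    intro σ hσ
    exact rbar_of_omega x hσ
  · intro A _
    refine ⟨1, fun σ _ => ?_⟩
    have h1 : ((1 : SO n k)⁻¹ * rbar p k x σ * 1 : SO n k) = rbar p k x σ := by
      rw [inv_one, one_mul, mul_one]
    rw [h1]
    have h3 : (rbar p k x σ).1.1 = Matrix.diagonal fun i => ((omega p k σ ^ expo x i : kˣ) : k) :=
      rfl
    refine ⟨?_, fun _ i => ?_⟩
    · rw [h3]
      exact Matrix.blockTriangular_diagonal _
    · rw [h3, Matrix.diagonal_apply_eq]
  · intro l hl _ hlp A hA σ hσ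
    exact rbar_of_omega x (omega_unramified k hl hlp hA hσ)

/-- A strongly regular weight with a given number of odd entries. -/
def wt (n a : ℕ) (i : Fin n) : ℤ := 4 * ((n : ℤ) - i) + if (i : ℕ) < a then 1 else 0

lemma wt_regular (n a : ℕ) : StronglyRegular (wt n a) := by
  refine ⟨fun i hi => ?_, fun i hi hi' => ?_⟩
  · simp only [wt]
    push_cast
    split_ifs <;> omega
  · simp only [wt]
    split_ifs <;> omega

lemma numOdd_wt {n a : ℕ} (h : a ≤ n) : numOdd (wt n a) = a := by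
  have h1 : (Finset.univ.filter fun i : Fin n => Odd (wt n a i)) =
      Finset.univ.filter fun i : Fin n => (i : ℕ) < a := by
    ext i
    rw [Finset.mem_filter, Finset.mem_filter]
    refine and_congr_right fun _ => ?_
    unfold wt
    by_cases h2 : (i : ℕ) < a
    · rw [if_pos h2]
      exact ⟨fun _ => h2, fun _ => ⟨2 * ((n : ℤ) - i), by ring⟩⟩
    · rw [if_neg h2, add_zero]
      refine ⟨fun h3 => absurd h3 (Int.not_odd_iff_even.2 ⟨2 * ((n : ℤ) - i), by ring⟩),
        fun h3 => absurd h3 h2⟩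
  rw [numOdd, h1]
  rw [Fin.card_filter_val_lt]
  exact min_eq_right h

lemma numOdd_le {n : ℕ} (x : Fin n → ℤ) : numOdd x ≤ n := by
  have := Finset.card_filter_le (Finset.univ : Finset (Fin n)) (fun i => Odd (x i))
  simpa [numOdd] using this

/-- The smallest case: `Sp_4`, `p = 3`, `x = (4, 2)`. Here `x^∨ ∘ ω` is the trivial homomorphism. -/
theorem example_sp4 (k : Type) [Field k] [Finite k] [CharP k 3] [Fact (Nat.Prime 3)] :
    Odd (∑ i, ((![4, 2] : Fin 2 → ℤ) i - rho 2 i)) ∧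
      rbar 3 k (![4, 2] : Fin 2 → ℤ) = 1 ∧ Hypotheses 3 k (![4, 2] : Fin 2 → ℤ) ∅ 1 := by
  have hp : 3 ≠ 2 := by norm_num
  have h0 : numOdd (![4, 2] : Fin 2 → ℤ) = 0 := by
    rw [numOdd, Finset.card_eq_zero, Finset.filter_eq_empty_iff]
    intro i _
    fin_cases i
    · change ¬ Odd (4 : ℤ)
      decide
    · change ¬ Odd (2 : ℤ)
      decide
  have hr : rbar 3 k (![4, 2] : Fin 2 → ℤ) = 1 := by
    ext1 σ
    have hsq : omega 3 k σ ^ 2 = 1 := by
      unfold omega
      simp only [MonoidHom.comp_apply]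
      rw [← map_pow]
      have h5 : ∀ u : (ZMod 3)ˣ, u ^ 2 = 1 := fun u => ZMod.units_pow_card_sub_one_eq_one 3 u
      rw [h5, map_one]
    have hsq' : ∀ m : ℤ, omega 3 k σ ^ (2 * m) = 1 := by
      intro m
      rw [_root_.zpow_mul]
      have : omega 3 k σ ^ (2 : ℤ) = 1 := by
        exact_mod_cast hsq
      rw [this, _root_.one_zpow]
    rw [MonoidHom.one_apply]
    apply Subtype.ext
    change (diagHom (2 * 2 + 1) k fun i => omega 3 k σ ^ expo (![4, 2] : Fin 2 → ℤ) i) = 1
    have : (fun i : Fin (2 * 2 + 1) => omega 3 k σ ^ (expo (![4, 2] : Fin 2 → ℤ) i)) = 1 := by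
      funext i
      have h6 : ∃ m : ℤ, expo (![4, 2] : Fin 2 → ℤ) i = 2 * m := by
        fin_cases i
        · exact ⟨2, rfl⟩
        · exact ⟨1, rfl⟩
        · exact ⟨0, rfl⟩
        · exact ⟨-1, rfl⟩
        · exact ⟨-2, rfl⟩
      obtain ⟨m, hm⟩ := h6
      rw [hm, hsq']
      rfl
    rw [this, map_one]
  refine ⟨?_, hr, ?_⟩
  · rw [odd_iff, h0]
    decide
  · have h7 := (hyp_iff 3 hp k (![4, 2] : Fin 2 → ℤ)).2 ⟨?_, ?_⟩
    · rw [hr] at h7
      exact h7
    · refine ⟨fun i hi => ?_, fun i hi hi' => ?_⟩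
      · have : i = 0 := by omega
        subst this
        change (2 : ℤ) ≤ 4 - 2
        norm_num
      · have : i = 1 := by omega
        subst this
        change (2 : ℤ) ≤ 2
        norm_num
    · rw [h0]
      norm_num


/-- **Counterexamples for the symplectic groups.** Let `p` be an odd prime and `G = Sp_{2n}`, so
that `G^∨ = SO_{2n+1}`.

1. Let the sum of the entries of `x - ρ` be odd. Then all the cohomology groups
   `H^i(Γ₀(N), M ⊗ k)` vanish, for every `N`, every `i`, every finite field `k` of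
   characteristic `p` and every stable lattice `M` in the irreducible representation of highest
   weight `x - ρ`. So no Hecke eigenclass matches any homomorphism to `SO_{2n+1}(k)`.
2. Let `a` be the number of odd entries of `x`. The homomorphism `rbar p k x = x^∨ ∘ ω` satisfies
   all the hypotheses of the question with `S = ∅` if and only if `x` is strongly regular and `p`
   divides `(n - 2 a) (n + 1 - 2 a)`.
3. For `n > 0` there is a weight `x` with both properties, so that the question has a negative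
   answer for `Sp_{2n}` and `p`, if and only if `p ≤ n` or `p = n + 1 ≡ 3 mod 4` (for example for
   `Sp_4` and `p = 3`). -/
theorem result (p : ℕ) [Fact p.Prime] (hp : p ≠ 2) :
    (∀ (n : ℕ) (x : Fin n → ℤ), Odd (∑ i, (x i - rho n i)) →
      ∀ (V : Type) [AddCommGroup V] [Module ℚ V] (π : Representation ℚ (Sp n ℚ) V),
        IsIrreducibleOfHighestWeight π (fun i => x i - rho n i) →
        ∀ (M : Submodule ℤ V) (hM : IsStableLattice π M) (k : Type) [Field k] [Finite k]
          [CharP k p] (N i : ℕ), Subsingleton (H hM N k i)) ∧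
    (∀ (n : ℕ) (x : Fin n → ℤ) (k : Type) [Field k] [Finite k] [CharP k p],
      Hypotheses p k x ∅ (rbar p k x) ↔
        StronglyRegular x ∧ (p : ℤ) ∣ ((n : ℤ) - 2 * numOdd x) * (n + 1 - 2 * numOdd x)) ∧
    (∀ n : ℕ, 0 < n → ((∃ x : Fin n → ℤ, Odd (∑ i, (x i - rho n i)) ∧
      ∀ (k : Type) [Field k] [Finite k] [CharP k p], Hypotheses p k x ∅ (rbar p k x)) ↔
        (p ≤ n ∨ (p = n + 1 ∧ p % 4 = 3)))) := by
  have hpp : p.Prime := Fact.out
  have hodd : p % 2 = 1 := by
    rcases hpp.eq_two_or_odd with h | h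
    · exact absurd h hp
    · exact h
  refine ⟨?_, ?_, ?_⟩
  · intro n x hx V _ _ π hπ M hM k _ _ _ N i
    exact vanishing hπ hx hM N k (two_ne_zero' hp k) i
  · intro n x k _ _ _
    exact hyp_iff p hp k x
  · intro n hn0
    constructor
    · rintro ⟨x, hx, hk⟩
      rw [odd_iff, Nat.odd_iff] at hx
      have h1 := ((hyp_iff p hp (ZMod p) x).1 (hk (ZMod p))).2
      have h4 := numOdd_le x
      by_contra hcon
      rcases (Nat.prime_iff_prime_int.1 hpp).dvd_or_dvd h1 with h3 | h3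
      · have h5 : (n : ℤ) - 2 * numOdd x = 0 := by
          apply Int.eq_zero_of_abs_lt_dvd h3
          rw [abs_lt]
          constructor <;> omega
        omega
      · have h5 : (n : ℤ) + 1 - 2 * numOdd x = 0 ∨ (p = n + 1 ∧ numOdd x = 0) := by
          by_cases h6 : p = n + 1 ∧ numOdd x = 0
          · exact Or.inr h6
          · left
            apply Int.eq_zero_of_abs_lt_dvd h3
            rw [abs_lt]
            constructor <;> omega
        rcases h5 with h5 | h5
        · omega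
        · omega
    · intro h
      obtain ⟨a, ha, hodd', hdvd⟩ : ∃ a : ℕ, a ≤ n ∧ Odd ((n + 1) / 2 + a) ∧
          (p : ℤ) ∣ ((n : ℤ) - 2 * a) * (n + 1 - 2 * a) := by
        rcases h with h | ⟨h, h'⟩
        · rcases Nat.even_or_odd' n with ⟨m, hm | hm⟩
          · rcases (show p % 4 = 1 ∨ p % 4 = 3 by omega) with h4 | h4
            · refine ⟨(n + 1 + p) / 2, by omega, by rw [Nat.odd_iff]; omega, ?_⟩
              refine Dvd.dvd.mul_left ?_ _
              have : (n : ℤ) + 1 - 2 * (((n + 1 + p) / 2 : ℕ) : ℤ) = -p := by omega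
              rw [this]
              exact (dvd_refl _).neg_right
            · refine ⟨(n + 1 - p) / 2, by omega, by rw [Nat.odd_iff]; omega, ?_⟩
              refine Dvd.dvd.mul_left ?_ _
              have : (n : ℤ) + 1 - 2 * (((n + 1 - p) / 2 : ℕ) : ℤ) = p := by omega
              rw [this]
          · rcases (show p % 4 = 1 ∨ p % 4 = 3 by omega) with h4 | h4
            · refine ⟨(n - p) / 2, by omega, by rw [Nat.odd_iff]; omega, ?_⟩
              refine Dvd.dvd.mul_right ?_ _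
              have : (n : ℤ) - 2 * (((n - p) / 2 : ℕ) : ℤ) = p := by omega
              rw [this]
            · refine ⟨(n + p) / 2, by omega, by rw [Nat.odd_iff]; omega, ?_⟩
              refine Dvd.dvd.mul_right ?_ _
              have : (n : ℤ) - 2 * (((n + p) / 2 : ℕ) : ℤ) = -p := by omega
              rw [this]
              exact (dvd_refl _).neg_right
        · refine ⟨0, by omega, by rw [Nat.odd_iff]; omega, ?_⟩
          refine Dvd.dvd.mul_left ?_ _
          have : (n : ℤ) + 1 - 2 * ((0 : ℕ) : ℤ) = p := by omega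
          rw [this]
      refine ⟨wt n a, ?_, fun k _ _ _ => ?_⟩
      · rw [odd_iff, numOdd_wt ha]
        exact hodd'
      · rw [hyp_iff p hp k, numOdd_wt ha]
        exact ⟨wt_regular _ _, hdvd⟩

end

end Pool.Agent.Results.MP_f2eb9c_nt.SymplecticGroups
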